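import Mathlib

/-! Diagonal linear maps of the plane and centred ellipses. -/

namespace Pool.Agent.R293.RFK

open MeasureTheory Set Complex Topology
open scoped ENNReal ContDiff

/-- The diagonal map `(x, y) ↦ (p x, q y)` of the plane. -/
noncomputable def dgL (p q : ℝ) : ℂ →ₗ[ℝ] ℂ :=
  Matrix.toLin Complex.basisOneI Complex.basisOneI !![p, 0; 0, q]

lemma dgL_apply (p q : ℝ) (z : ℂ) : dgL p q z = ⟨p * z.re, q * z.im⟩ := by
  unfold dgL
  rw [Matrix.toLin_apply, Fin.sum_univ_two, Complex.coe_basisOneI_repr, Complex.coe_basisOneI]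
  apply Complex.ext <;>
  simp [Matrix.mulVec_eq_sum, Fin.sum_univ_two, mul_comm]

lemma det_dgL (p q : ℝ) : LinearMap.det (dgL p q) = p * q := by
  unfold dgL
  rw [LinearMap.det_toLin, Matrix.det_fin_two_of]
  ring

/-- Continuous version. -/
noncomputable def dg (p q : ℝ) : ℂ →L[ℝ] ℂ := LinearMap.toContinuousLinearMap (dgL p q)

lemma dg_apply (p q : ℝ) (z : ℂ) : dg p q z = ⟨p * z.re, q * z.im⟩ := dgL_apply p q z

@[simp] lemma dg_re (p q : ℝ) (z : ℂ) : (dg p q z).re = p * z.re := by rw [dg_apply]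
@[simp] lemma dg_im (p q : ℝ) (z : ℂ) : (dg p q z).im = q * z.im := by rw [dg_apply]

lemma dg_one (p q : ℝ) : dg p q 1 = ((p : ℝ) : ℂ) := by
  apply Complex.ext <;> simp

lemma dg_I (p q : ℝ) : dg p q I = ((q : ℝ) : ℂ) * I := by
  apply Complex.ext <;> simp

lemma map_dg {p q : ℝ} (hp : 0 < p) (hq : 0 < q) :
    Measure.map (dg p q) volume = ENNReal.ofReal ((p * q)⁻¹) • (volume : Measure ℂ) := by
  have h := Measure.map_linearMap_addHaar_eq_smul_addHaar (μ := (volume : Measure ℂ))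
    (f := dgL p q) (by rw [det_dgL]; positivity)
  rw [det_dgL, abs_of_pos (by positivity)] at h
  exact h

lemma lintegral_comp_dg {p q : ℝ} (hp : 0 < p) (hq : 0 < q) {f : ℂ → ℝ≥0∞} (hf : Measurable f) :
    ∫⁻ z, f (dg p q z) = ENNReal.ofReal ((p * q)⁻¹) * ∫⁻ z, f z := by
  have h := lintegral_map (μ := (volume : Measure ℂ)) hf (dg p q).continuous.measurable
  rw [← h, map_dg hp hq, lintegral_smul_measure, smul_eq_mul]

/-- The measurable equivalence given by a diagonal map. -/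
lemma dg_inv_left {p q : ℝ} (hp : 0 < p) (hq : 0 < q) (z : ℂ) : dg p⁻¹ q⁻¹ (dg p q z) = z := by
  apply Complex.ext
  · simp; field_simp
  · simp; field_simp

lemma dg_inv_right {p q : ℝ} (hp : 0 < p) (hq : 0 < q) (z : ℂ) : dg p q (dg p⁻¹ q⁻¹ z) = z := by
  apply Complex.ext
  · simp; field_simp
  · simp; field_simp

/-- Diagonal maps as homeomorphisms. -/
noncomputable def dgH (p q : ℝ) (hp : 0 < p) (hq : 0 < q) : ℂ ≃ₜ ℂ where
  toFun := dg p q
  invFun := dg p⁻¹ q⁻¹
  left_inv := dg_inv_left hp hq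
  right_inv := dg_inv_right hp hq
  continuous_toFun := (dg p q).continuous
  continuous_invFun := (dg p⁻¹ q⁻¹).continuous

lemma integral_comp_dg {p q : ℝ} (hp : 0 < p) (hq : 0 < q) (f : ℂ → ℝ) :
    ∫ z, f (dg p q z) = (p * q)⁻¹ * ∫ z, f z := by
  have h := (dgH p q hp hq).measurableEmbedding.integral_map (μ := (volume : Measure ℂ)) f
  have h2 : Measure.map (dgH p q hp hq) volume
      = ENNReal.ofReal ((p * q)⁻¹) • (volume : Measure ℂ) := map_dg hp hq
  rw [h2, integral_smul_measure, ENNReal.toReal_ofReal (by positivity), smul_eq_mul] at h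
  exact h.symm

/-- The open ellipse with semi-axes `a`, `c`. -/
def ell (a c : ℝ) : Set ℂ := {z | (z.re / a) ^ 2 + (z.im / c) ^ 2 < 1}

lemma isOpen_ell (a c : ℝ) : IsOpen (ell a c) := by
  unfold ell
  apply isOpen_lt
  · fun_prop
  · fun_prop

lemma mem_ell_iff {a c : ℝ} {z : ℂ} : z ∈ ell a c ↔ (z.re / a) ^ 2 + (z.im / c) ^ 2 < 1 := Iff.rfl

lemma ell_one_mem (z : ℂ) : z ∈ ell 1 1 ↔ ‖z‖ < 1 := by
  rw [mem_ell_iff, div_one, div_one, ← sq_lt_one_iff₀ (norm_nonneg z), ← Complex.normSq_eq_norm_sq,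
    Complex.normSq_apply, pow_two, pow_two]

lemma ell_eq_preimage (a c : ℝ) : ell a c = dg a⁻¹ c⁻¹ ⁻¹' (Metric.ball 0 1) := by
  ext z
  rw [mem_preimage, mem_ball_zero_iff, ← ell_one_mem, mem_ell_iff, mem_ell_iff]
  simp [div_eq_inv_mul]

lemma volume_ell {a c : ℝ} (ha : 0 < a) (hc : 0 < c) :
    volume (ell a c) = ENNReal.ofReal (a * c) * volume (Metric.ball (0 : ℂ) 1) := by
  rw [ell_eq_preimage]
  have h := map_dg (p := a⁻¹) (q := c⁻¹) (by positivity) (by positivity)
  have h2 := Measure.map_apply (μ := (volume : Measure ℂ)) (dg a⁻¹ c⁻¹).continuous.measurable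
    (s := Metric.ball (0 : ℂ) 1) Metric.isOpen_ball.measurableSet
  rw [← h2, h, Measure.smul_apply, smul_eq_mul]
  congr 2
  field_simp

lemma volume_ell_eq {a c : ℝ} (ha : 0 < a) (hc : 0 < c) :
    volume (ell a c) = ENNReal.ofReal (Real.pi * (a * c)) := by
  rw [volume_ell ha hc, Complex.volume_ball]
  rw [ENNReal.ofReal_one, one_pow, one_mul, mul_comm Real.pi,
    ENNReal.ofReal_mul (p := a * c) (by positivity), ← NNReal.coe_real_pi,
    ENNReal.ofReal_coe_nnreal]

lemma volume_ball_eq {R : ℝ} (hR : 0 < R) :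
    volume (Metric.ball (0 : ℂ) R) = ENNReal.ofReal (Real.pi * R ^ 2) := by
  have h : Metric.ball (0 : ℂ) R = ell R R := by
    ext z
    rw [mem_ball_zero_iff, mem_ell_iff, ← sq_lt_sq₀ (norm_nonneg z) hR.le,
      ← Complex.normSq_eq_norm_sq, Complex.normSq_apply, div_pow, div_pow, ← add_div,
      div_lt_one (by positivity), pow_two, pow_two z.re, pow_two z.im]
  rw [h, volume_ell_eq hR hR, pow_two]

lemma ball_eq_ell {R : ℝ} (hR : 0 < R) : Metric.ball (0 : ℂ) R = ell R R := by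
  ext z
  rw [mem_ball_zero_iff, mem_ell_iff, ← sq_lt_sq₀ (norm_nonneg z) hR.le,
    ← Complex.normSq_eq_norm_sq, Complex.normSq_apply, div_pow, div_pow, ← add_div,
    div_lt_one (by positivity), pow_two, pow_two z.re, pow_two z.im]

lemma bounded_ell {a c : ℝ} (ha : 0 < a) (hc : 0 < c) : Bornology.IsBounded (ell a c) := by
  have h : ell a c ⊆ Metric.ball 0 (a + c + 1) := by
    intro z hz
    rw [mem_ell_iff] at hz
    rw [mem_ball_zero_iff]
    have h1 : |z.re / a| < 1 := by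
      rw [← sq_lt_one_iff_abs_lt_one]
      nlinarith [sq_nonneg (z.im / c)]
    have h2 : |z.im / c| < 1 := by
      rw [← sq_lt_one_iff_abs_lt_one]
      nlinarith [sq_nonneg (z.re / a)]
    rw [abs_div, abs_of_pos ha, div_lt_one ha] at h1
    rw [abs_div, abs_of_pos hc, div_lt_one hc] at h2
    have := Complex.norm_le_abs_re_add_abs_im z
    linarith
  exact Metric.isBounded_ball.subset h

lemma convex_ell (a c : ℝ) : Convex ℝ (ell a c) := by
  rw [ell_eq_preimage]
  exact (convex_ball (0 : ℂ) 1).linear_preimage (dg a⁻¹ c⁻¹).toLinearMap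

lemma zero_mem_ell (a c : ℝ) : (0 : ℂ) ∈ ell a c := by
  simp [mem_ell_iff]

lemma simplyConnected_ell (a c : ℝ) : SimplyConnectedSpace (ell a c) := by
  have : ContractibleSpace (ell a c) := (convex_ell a c).contractibleSpace ⟨0, zero_mem_ell a c⟩
  infer_instance

lemma frontier_ell_subset (a c : ℝ) :
    frontier (ell a c) ⊆ {z | (z.re / a) ^ 2 + (z.im / c) ^ 2 = 1} := by
  unfold ell
  exact frontier_lt_subset_eq (by fun_prop) (by fun_prop)

lemma closure_ell_subset (a c : ℝ) :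
    closure (ell a c) ⊆ {z | (z.re / a) ^ 2 + (z.im / c) ^ 2 ≤ 1} := by
  unfold ell
  exact closure_lt_subset_le (by fun_prop) (by fun_prop)

/-- The defining function of an ellipse. -/
noncomputable def rho (a c : ℝ) (z : ℂ) : ℝ := (z.re / a) ^ 2 + (z.im / c) ^ 2

lemma contDiff_rho (a c : ℝ) : ContDiff ℝ ∞ (rho a c) := by
  unfold rho
  have h1 : ContDiff ℝ ∞ (fun z : ℂ => z.re) := Complex.reCLM.contDiff
  have h2 : ContDiff ℝ ∞ (fun z : ℂ => z.im) := Complex.imCLM.contDiff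
  exact ((h1.div_const a).pow 2).add ((h2.div_const c).pow 2)

lemma fderiv_rho_ne_zero {a c : ℝ} {p : ℂ} (hp : rho a c p = 1) :
    fderiv ℝ (fun z => rho a c z - 1) p ≠ 0 := by
  intro h0
  have hd : DifferentiableAt ℝ (fun z => rho a c z - 1) p :=
    ((contDiff_rho a c).differentiable (by simp)).differentiableAt.sub_const 1
  have h1 : HasFDerivAt (fun z => rho a c z - 1) (0 : ℂ →L[ℝ] ℝ) p := h0 ▸ hd.hasFDerivAt
  have h2 : HasDerivAt (fun t : ℝ => t • p) p 1 := by
    simpa using (hasDerivAt_id (1 : ℝ)).smul_const p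
  have h1' : HasFDerivAt (fun z => rho a c z - 1) (0 : ℂ →L[ℝ] ℝ) ((fun t : ℝ => t • p) 1) := by
    simpa using h1
  have h3 := h1'.comp_hasDerivAt (1 : ℝ) h2
  have h4 : ((fun z => rho a c z - 1) ∘ fun t : ℝ => t • p) = fun t : ℝ => t ^ 2 * 1 - 1 := by
    funext t
    simp only [Function.comp]
    rw [← hp]
    simp only [rho, Complex.smul_re, Complex.smul_im, smul_eq_mul]
    ring
  rw [h4] at h3
  have h5 : HasDerivAt (fun t : ℝ => t ^ 2 * 1 - 1) (2 : ℝ) 1 := by
    have := (((hasDerivAt_id (1 : ℝ)).pow 2).mul_const 1).sub_const 1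
    simpa using this
  have := h3.unique h5
  simp at this

end Pool.Agent.R293.RFK
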