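import Mathlib

/-! The commutator estimate: `b ∫_ω |u|² ≤ C (energy) + G (mass)`. -/

namespace Pool.Agent.R293.RFK

open MeasureTheory Set Complex Topology
open scoped ContDiff NNReal

/-- A smooth function on `Ω`, cut off by a function supported in `Ω`, is globally smooth. -/
lemma contDiff_mul_cutoff {Ω : Set ℂ} (hΩ : IsOpen Ω) {f k : ℂ → ℝ}
    (hf : ContDiff ℝ ∞ f) (hs : tsupport f ⊆ Ω) (hk : ContDiffOn ℝ ∞ k Ω) :
    ContDiff ℝ ∞ (fun z => f z * k z) := by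
  rw [contDiff_iff_contDiffAt]
  intro z
  by_cases hz : z ∈ Ω
  · exact hf.contDiffAt.mul (hk.contDiffAt (hΩ.mem_nhds hz))
  · have h1 : f =ᶠ[𝓝 z] 0 := notMem_tsupport_iff_eventuallyEq.mp (fun h => hz (hs h))
    have h2 : (fun z => f z * k z) =ᶠ[𝓝 z] fun _ => (0 : ℝ) := by
      filter_upwards [h1] with w hw
      rw [hw]; simp
    exact contDiffAt_const.congr_of_eventuallyEq h2

lemma hasCompactSupport_mul_cutoff {f k : ℂ → ℝ} (hc : HasCompactSupport f) :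
    HasCompactSupport (fun z => f z * k z) := hc.mul_right

lemma tsupport_mul_cutoff {f k : ℂ → ℝ} : tsupport (fun z => f z * k z) ⊆ tsupport f :=
  tsupport_mul_subset_left

/-- Integral of a directional derivative of a compactly supported function. -/
lemma integral_fderiv_zero {W : ℂ → ℝ} (hW : ContDiff ℝ ∞ W) (hc : HasCompactSupport W) (v : ℂ) :
    ∫ z, fderiv ℝ W z v = 0 := by
  have hcont : Continuous (fun z => fderiv ℝ W z v) :=
    (hW.continuous_fderiv (by simp)).clm_apply continuous_const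
  have hsupp : HasCompactSupport (fun z => fderiv ℝ W z v) := hc.fderiv_apply (𝕜 := ℝ) v
  have h := integral_mul_fderiv_eq_neg_fderiv_mul_of_integrable (μ := (volume : Measure ℂ))
    (f := W) (g := fun _ => (1 : ℝ)) (v := v)
    (by simpa using hcont.integrable_of_hasCompactSupport hsupp)
    (by simp)
    (by simpa using hW.continuous.integrable_of_hasCompactSupport hc)
    (fun x _ => (hW.differentiable (by simp)) x) (fun x _ => differentiableAt_const _)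
  simp at h
  linarith

/-- Derivatives of a function smooth on an open set. -/
lemma contDiffOn_fderiv_apply {Ω : Set ℂ} (hΩ : IsOpen Ω) {k : ℂ → ℝ} (hk : ContDiffOn ℝ ∞ k Ω)
    (v : ℂ) : ContDiffOn ℝ ∞ (fun z => fderiv ℝ k z v) Ω :=
  (hk.fderiv_of_isOpen hΩ (by simp)).clm_apply contDiffOn_const

/-- Null Lagrangian identity. -/
lemma null_lagrangian {Ω : Set ℂ} (hΩ : IsOpen Ω) {f h : ℂ → ℝ}
    (hf : ContDiff ℝ ∞ f) (hc : HasCompactSupport f) (hs : tsupport f ⊆ Ω)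
    (hh : ContDiffOn ℝ ∞ h Ω) :
    IntegrableOn (fun z => fderiv ℝ f z 1 * fderiv ℝ h z I - fderiv ℝ f z I * fderiv ℝ h z 1) Ω ∧
    ∫ z in Ω, (fderiv ℝ f z 1 * fderiv ℝ h z I - fderiv ℝ f z I * fderiv ℝ h z 1) = 0 := by
  set W : ℂ → ℝ := fun z => f z * fderiv ℝ h z I with hWdef
  set V : ℂ → ℝ := fun z => f z * fderiv ℝ h z 1 with hVdef
  have hW : ContDiff ℝ ∞ W := contDiff_mul_cutoff hΩ hf hs (contDiffOn_fderiv_apply hΩ hh I)
  have hV : ContDiff ℝ ∞ V := contDiff_mul_cutoff hΩ hf hs (contDiffOn_fderiv_apply hΩ hh 1)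
  have hWc : HasCompactSupport W := hc.mul_right
  have hVc : HasCompactSupport V := hc.mul_right
  have key : ∀ z ∈ Ω, fderiv ℝ f z 1 * fderiv ℝ h z I - fderiv ℝ f z I * fderiv ℝ h z 1
      = fderiv ℝ W z 1 - fderiv ℝ V z I := by
    intro z hz
    have hfz : DifferentiableAt ℝ f z := (hf.differentiable (by simp)) z
    have h2 : ContDiffOn ℝ ∞ (fderiv ℝ h) Ω := hh.fderiv_of_isOpen hΩ (by simp)
    have h3 : DifferentiableAt ℝ (fderiv ℝ h) z :=
      (h2.contDiffAt (hΩ.mem_nhds hz)).differentiableAt (by simp)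
    have hsym : IsSymmSndFDerivAt ℝ h z :=
      (hh.contDiffAt (hΩ.mem_nhds hz)).isSymmSndFDerivAt (by
        rw [minSmoothness_of_isRCLikeNormedField]
        exact ENat.LEInfty.out)
    have a1 : fderiv ℝ (fun z => fderiv ℝ h z I) z 1 = fderiv ℝ (fderiv ℝ h) z 1 I := by
      have : HasFDerivAt (fun z => fderiv ℝ h z I)
          ((ContinuousLinearMap.apply ℝ ℝ I).comp (fderiv ℝ (fderiv ℝ h) z)) z :=
        (ContinuousLinearMap.apply ℝ ℝ I).hasFDerivAt.comp z h3.hasFDerivAt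
      rw [this.fderiv]; rfl
    have a2 : fderiv ℝ (fun z => fderiv ℝ h z 1) z I = fderiv ℝ (fderiv ℝ h) z I 1 := by
      have : HasFDerivAt (fun z => fderiv ℝ h z 1)
          ((ContinuousLinearMap.apply ℝ ℝ (1 : ℂ)).comp (fderiv ℝ (fderiv ℝ h) z)) z :=
        (ContinuousLinearMap.apply ℝ ℝ (1 : ℂ)).hasFDerivAt.comp z h3.hasFDerivAt
      rw [this.fderiv]; rfl
    have b1 : DifferentiableAt ℝ (fun z => fderiv ℝ h z I) z :=
      ((contDiffOn_fderiv_apply hΩ hh I).contDiffAt (hΩ.mem_nhds hz)).differentiableAt (by simp)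
    have b2 : DifferentiableAt ℝ (fun z => fderiv ℝ h z 1) z :=
      ((contDiffOn_fderiv_apply hΩ hh 1).contDiffAt (hΩ.mem_nhds hz)).differentiableAt (by simp)
    have c1 : fderiv ℝ W z 1 = f z * fderiv ℝ (fderiv ℝ h) z 1 I
        + fderiv ℝ h z I * fderiv ℝ f z 1 := by
      rw [hWdef, fderiv_fun_mul hfz b1]
      simp [a1]
    have c2 : fderiv ℝ V z I = f z * fderiv ℝ (fderiv ℝ h) z I 1
        + fderiv ℝ h z 1 * fderiv ℝ f z I := by
      rw [hVdef, fderiv_fun_mul hfz b2]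
      simp [a2]
    rw [c1, c2, hsym 1 I]
    ring
  have hcW : Continuous (fun z => fderiv ℝ W z 1) :=
    (hW.continuous_fderiv (by simp)).clm_apply continuous_const
  have hcV : Continuous (fun z => fderiv ℝ V z I) :=
    (hV.continuous_fderiv (by simp)).clm_apply continuous_const
  have hiW : Integrable (fun z => fderiv ℝ W z 1) :=
    hcW.integrable_of_hasCompactSupport (hWc.fderiv_apply (𝕜 := ℝ) 1)
  have hiV : Integrable (fun z => fderiv ℝ V z I) :=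
    hcV.integrable_of_hasCompactSupport (hVc.fderiv_apply (𝕜 := ℝ) I)
  have hi : Integrable (fun z => fderiv ℝ W z 1 - fderiv ℝ V z I) := hiW.sub hiV
  constructor
  · exact (hi.integrableOn (s := Ω)).congr_fun (fun z hz => (key z hz).symm) hΩ.measurableSet
  · rw [setIntegral_congr_fun hΩ.measurableSet (fun z hz => key z hz)]
    rw [setIntegral_eq_integral_of_forall_compl_eq_zero]
    · rw [integral_sub hiW hiV, integral_fderiv_zero hW hWc, integral_fderiv_zero hV hVc, sub_zero]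
    · intro z hz
      have hzf : z ∉ tsupport f := fun h => hz (hs h)
      have hzW : z ∉ tsupport W := fun h => hzf (tsupport_mul_subset_left h)
      have hzV : z ∉ tsupport V := fun h => hzf (tsupport_mul_subset_left h)
      rw [fderiv_of_notMem_tsupport ℝ hzW, fderiv_of_notMem_tsupport ℝ hzV]
      simp

lemma abs_det_le (a b c d : ℝ) : |a * d - b * c| ≤ (a ^ 2 + b ^ 2 + c ^ 2 + d ^ 2) / 2 := by
  rw [abs_le]
  constructor
  · nlinarith [sq_nonneg (a + d), sq_nonneg (b - c)]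
  · nlinarith [sq_nonneg (a - d), sq_nonneg (b + c)]

lemma norm_sq_eq (z : ℂ) : ‖z‖ ^ 2 = z.re ^ 2 + z.im ^ 2 := by
  rw [← Complex.normSq_eq_norm_sq, Complex.normSq_apply]; ring

/-- The first component of the magnetic gradient. -/
noncomputable def D1 (A₁ : ℂ → ℝ) (u : ℂ → ℂ) (z : ℂ) : ℂ := fderiv ℝ u z 1 - I * A₁ z * u z

/-- The second component of the magnetic gradient. -/
noncomputable def D2 (A₂ : ℂ → ℝ) (u : ℂ → ℂ) (z : ℂ) : ℂ := fderiv ℝ u z I - I * A₂ z * u z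

/-- The remainder in the commutator identity. -/
noncomputable def RR (g A₁ A₂ : ℂ → ℝ) (u : ℂ → ℂ) (z : ℂ) : ℝ :=
  2 * g z * ((D1 A₁ u z).re * (D2 A₂ u z).im - (D1 A₁ u z).im * (D2 A₂ u z).re)
    + fderiv ℝ g z 1 * ((u z).re * (D2 A₂ u z).im - (u z).im * (D2 A₂ u z).re)
    - fderiv ℝ g z I * ((u z).re * (D1 A₁ u z).im - (u z).im * (D1 A₁ u z).re)

lemma RR_le {g A₁ A₂ : ℂ → ℝ} {u : ℂ → ℂ} {z : ℂ} {G : ℝ} (h0 : 0 ≤ g z) (h1 : g z ≤ 1)
    (hG1 : |fderiv ℝ g z 1| ≤ G) (hG2 : |fderiv ℝ g z I| ≤ G) :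
    |RR g A₁ A₂ u z| ≤ (1 + G / 2) * (‖D1 A₁ u z‖ ^ 2 + ‖D2 A₂ u z‖ ^ 2) + G * ‖u z‖ ^ 2 := by
  have hG : 0 ≤ G := (abs_nonneg _).trans hG1
  rw [norm_sq_eq, norm_sq_eq, norm_sq_eq]
  unfold RR
  set a := (D1 A₁ u z).re
  set b := (D1 A₁ u z).im
  set c := (D2 A₂ u z).re
  set d := (D2 A₂ u z).im
  set p := (u z).re
  set q := (u z).im
  have e1 : |2 * g z * (a * d - b * c)| ≤ 1 * (a ^ 2 + b ^ 2 + (c ^ 2 + d ^ 2)) := by
    rw [abs_mul, abs_of_nonneg (by positivity : 0 ≤ 2 * g z)]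
    have := abs_det_le a b c d
    have h2 : 0 ≤ |a * d - b * c| := abs_nonneg _
    nlinarith
  have e2 : |fderiv ℝ g z 1 * (p * d - q * c)| ≤ G * ((p ^ 2 + q ^ 2 + c ^ 2 + d ^ 2) / 2) := by
    rw [abs_mul]
    exact mul_le_mul hG1 (abs_det_le p q c d) (abs_nonneg _) hG
  have e3 : |fderiv ℝ g z I * (p * b - q * a)| ≤ G * ((p ^ 2 + q ^ 2 + a ^ 2 + b ^ 2) / 2) := by
    rw [abs_mul]
    exact mul_le_mul hG2 (abs_det_le p q a b) (abs_nonneg _) hG
  calc |2 * g z * (a * d - b * c) + fderiv ℝ g z 1 * (p * d - q * c)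
        - fderiv ℝ g z I * (p * b - q * a)|
      ≤ |2 * g z * (a * d - b * c)| + |fderiv ℝ g z 1 * (p * d - q * c)|
        + |fderiv ℝ g z I * (p * b - q * a)| := by
        refine (abs_sub _ _).trans ?_
        gcongr
        exact abs_add_le _ _
    _ ≤ 1 * (a ^ 2 + b ^ 2 + (c ^ 2 + d ^ 2)) + G * ((p ^ 2 + q ^ 2 + c ^ 2 + d ^ 2) / 2)
        + G * ((p ^ 2 + q ^ 2 + a ^ 2 + b ^ 2) / 2) := by gcongr
    _ = _ := by ring

/-- The integrated commutator identity. -/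
lemma commutator {Ω : Set ℂ} (hΩ : IsOpen Ω) {g A₁ A₂ : ℂ → ℝ} {u : ℂ → ℂ}
    (hg : ContDiff ℝ ∞ g) (hc : HasCompactSupport g) (hs : tsupport g ⊆ Ω)
    (hu : ContDiffOn ℝ ∞ u Ω) (hA1 : Measurable A₁) (hA2 : Measurable A₂)
    {C : ℝ} (hC : ∀ z ∈ Ω, |A₁ z| ≤ C ∧ |A₂ z| ≤ C) :
    ∃ φ : ℂ → ℝ, ContDiff ℝ ∞ φ ∧ HasCompactSupport φ ∧ tsupport φ ⊆ Ω ∧
      (∀ z, φ z = g z * ‖u z‖ ^ 2) ∧ IntegrableOn (RR g A₁ A₂ u) Ω ∧
      ∫ z in Ω, RR g A₁ A₂ u z
        = - ∫ z in Ω, (A₂ z * fderiv ℝ φ z 1 - A₁ z * fderiv ℝ φ z I) := by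
  set p : ℂ → ℝ := fun z => (u z).re with hp
  set q : ℂ → ℝ := fun z => (u z).im with hq
  have hpc : ContDiffOn ℝ ∞ p Ω := Complex.reCLM.contDiff.comp_contDiffOn hu
  have hqc : ContDiffOn ℝ ∞ q Ω := Complex.imCLM.contDiff.comp_contDiffOn hu
  set φ : ℂ → ℝ := fun z => g z * (p z ^ 2 + q z ^ 2) with hφ
  have hφc : ContDiff ℝ ∞ φ := contDiff_mul_cutoff hΩ hg hs ((hpc.pow 2).add (hqc.pow 2))
  have hφs : HasCompactSupport φ := hc.mul_right
  have hφt : tsupport φ ⊆ Ω := (tsupport_mul_subset_left).trans hs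
  set f1 : ℂ → ℝ := fun z => g z * p z with hf1
  set f2 : ℂ → ℝ := fun z => g z * q z with hf2
  have hf1c : ContDiff ℝ ∞ f1 := contDiff_mul_cutoff hΩ hg hs hpc
  have hf2c : ContDiff ℝ ∞ f2 := contDiff_mul_cutoff hΩ hg hs hqc
  obtain ⟨i1, n1⟩ := null_lagrangian hΩ hf1c hc.mul_right ((tsupport_mul_subset_left).trans hs) hqc
  obtain ⟨i2, n2⟩ := null_lagrangian hΩ hf2c hc.mul_right ((tsupport_mul_subset_left).trans hs) hpc
  have hcont : ∀ v : ℂ, Continuous (fun z => fderiv ℝ φ z v) := fun v =>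
    (hφc.continuous_fderiv (by simp)).clm_apply continuous_const
  have hint : ∀ v : ℂ, Integrable (fun z => fderiv ℝ φ z v) := fun v =>
    (hcont v).integrable_of_hasCompactSupport (hφs.fderiv_apply (𝕜 := ℝ) v)
  have i3 : IntegrableOn (fun z => A₂ z * fderiv ℝ φ z 1 - A₁ z * fderiv ℝ φ z I) Ω := by
    apply Integrable.sub
    · apply ((hint 1).integrableOn (s := Ω)).bdd_mul (c := C) hA2.aestronglyMeasurable
      filter_upwards [ae_restrict_mem hΩ.measurableSet] with z hz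
      rw [Real.norm_eq_abs]; exact (hC z hz).2
    · apply ((hint I).integrableOn (s := Ω)).bdd_mul (c := C) hA1.aestronglyMeasurable
      filter_upwards [ae_restrict_mem hΩ.measurableSet] with z hz
      rw [Real.norm_eq_abs]; exact (hC z hz).1
  have key : ∀ z ∈ Ω, RR g A₁ A₂ u z
      = (fderiv ℝ f1 z 1 * fderiv ℝ q z I - fderiv ℝ f1 z I * fderiv ℝ q z 1)
        - (fderiv ℝ f2 z 1 * fderiv ℝ p z I - fderiv ℝ f2 z I * fderiv ℝ p z 1)
        - (A₂ z * fderiv ℝ φ z 1 - A₁ z * fderiv ℝ φ z I) := by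
    intro z hz
    have hud : HasFDerivAt u (fderiv ℝ u z) z :=
      ((hu.contDiffAt (hΩ.mem_nhds hz)).differentiableAt (by simp)).hasFDerivAt
    have hgd : HasFDerivAt g (fderiv ℝ g z) z := ((hg.differentiable (by simp)) z).hasFDerivAt
    have hpd : HasFDerivAt p (Complex.reCLM.comp (fderiv ℝ u z)) z :=
      Complex.reCLM.hasFDerivAt.comp z hud
    have hqd : HasFDerivAt q (Complex.imCLM.comp (fderiv ℝ u z)) z :=
      Complex.imCLM.hasFDerivAt.comp z hud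
    have hf1d := (hgd.fun_mul hpd).fderiv
    have hf2d := (hgd.fun_mul hqd).fderiv
    have hφd := (hgd.fun_mul ((hpd.fun_mul hpd).fun_add (hqd.fun_mul hqd))).fderiv
    have hφe : φ = fun z => g z * (p z * p z + q z * q z) := by
      funext w; simp only [hφ]; ring
    have eφ : ∀ v, fderiv ℝ φ z v = g z * (2 * p z * (fderiv ℝ u z v).re
        + 2 * q z * (fderiv ℝ u z v).im) + (p z ^ 2 + q z ^ 2) * fderiv ℝ g z v := by
      intro v
      rw [hφe, hφd]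
      simp
      ring
    have ef1 : ∀ v, fderiv ℝ f1 z v = g z * (fderiv ℝ u z v).re + p z * fderiv ℝ g z v := by
      intro v
      rw [hf1, hf1d]; simp
    have ef2 : ∀ v, fderiv ℝ f2 z v = g z * (fderiv ℝ u z v).im + q z * fderiv ℝ g z v := by
      intro v
      rw [hf2, hf2d]; simp
    have ep : ∀ v, fderiv ℝ p z v = (fderiv ℝ u z v).re := by
      intro v; rw [hpd.fderiv]; rfl
    have eq : ∀ v, fderiv ℝ q z v = (fderiv ℝ u z v).im := by
      intro v; rw [hqd.fderiv]; rfl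
    rw [eφ, eφ, ef1, ef1, ef2, ef2, ep, ep, eq, eq]
    unfold RR D1 D2
    simp only [hp, hq, Complex.sub_re, Complex.sub_im, Complex.mul_re, Complex.mul_im,
      Complex.I_re, Complex.I_im, Complex.ofReal_re, Complex.ofReal_im]
    ring
  refine ⟨φ, hφc, hφs, hφt, fun z => ?_, ?_, ?_⟩
  · simp only [hφ, hp, hq, norm_sq_eq]
  · exact ((i1.sub i2).sub i3).congr_fun (fun z hz => (key z hz).symm) hΩ.measurableSet
  · rw [setIntegral_congr_fun hΩ.measurableSet (fun z hz => key z hz)]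
    refine (integral_sub (i1.sub i2) i3).trans ?_
    have h12 := integral_sub i1 i2
    rw [n1, n2, sub_zero] at h12
    refine Eq.trans ?_ (zero_sub _)
    exact congrArg₂ _ h12 rfl

lemma ofReal_integral_le_lintegral {μ : Measure ℂ} {f : ℂ → ℝ} :
    ENNReal.ofReal (∫ z, f z ∂μ) ≤ ∫⁻ z, ENNReal.ofReal |f z| ∂μ := by
  calc ENNReal.ofReal (∫ z, f z ∂μ) ≤ ENNReal.ofReal ‖∫ z, f z ∂μ‖ :=
        ENNReal.ofReal_le_ofReal (Real.le_norm_self _)
    _ = ‖∫ z, f z ∂μ‖ₑ := ofReal_norm _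
    _ ≤ ∫⁻ z, ‖f z‖ₑ ∂μ := enorm_integral_le_lintegral_enorm _
    _ = ∫⁻ z, ENNReal.ofReal |f z| ∂μ := by
        apply lintegral_congr
        intro z
        rw [← ofReal_norm, Real.norm_eq_abs]

/-- The commutator estimate. -/
theorem curl_bound {Ω K : Set ℂ} (hΩ : IsOpen Ω) (hK : MeasurableSet K)
    {g A₁ A₂ : ℂ → ℝ} {u : ℂ → ℂ}
    (hg : ContDiff ℝ ∞ g) (hc : HasCompactSupport g) (hs : tsupport g ⊆ Ω)
    (hg0 : ∀ z, 0 ≤ g z) (hg1 : ∀ z, g z ≤ 1) (hgK : ∀ z ∈ K, g z = 1)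
    {G : ℝ} (hG : ∀ z, |fderiv ℝ g z 1| ≤ G ∧ |fderiv ℝ g z I| ≤ G)
    (hu : ContDiffOn ℝ ∞ u Ω) (hA1 : Measurable A₁) (hA2 : Measurable A₂)
    {C : ℝ} (hC : ∀ z ∈ Ω, |A₁ z| ≤ C ∧ |A₂ z| ≤ C) {b : ℝ} (hb : 0 ≤ b)
    (hw : ∀ φ : ℂ → ℝ, ContDiff ℝ ∞ φ → HasCompactSupport φ → tsupport φ ⊆ Ω →
      ∫ z in Ω, (A₂ z * fderiv ℝ φ z 1 - A₁ z * fderiv ℝ φ z I) = - (b * ∫ z in K, φ z)) :
    ENNReal.ofReal b * ∫⁻ z in K, ENNReal.ofReal (‖u z‖ ^ 2) ≤
      ∫⁻ z in Ω, ENNReal.ofReal ((1 + G / 2) * (‖D1 A₁ u z‖ ^ 2 + ‖D2 A₂ u z‖ ^ 2)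
        + G * ‖u z‖ ^ 2) := by
  obtain ⟨φ, hφ1, hφ2, hφ3, hφ4, hR1, hR2⟩ := commutator hΩ hg hc hs hu hA1 hA2 hC
  rw [hw φ hφ1 hφ2 hφ3, neg_neg] at hR2
  have hφK : ∀ z ∈ K, φ z = ‖u z‖ ^ 2 := fun z hz => by rw [hφ4, hgK z hz, one_mul]
  have e1 : ∫⁻ z in K, ENNReal.ofReal (‖u z‖ ^ 2) = ENNReal.ofReal (∫ z in K, φ z) := by
    rw [ofReal_integral_eq_lintegral_ofReal
      ((hφ1.continuous.integrable_of_hasCompactSupport hφ2).integrableOn)]
    · apply setLIntegral_congr_fun hK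
      intro z hz
      simp only [hφK z hz]
    · apply Filter.Eventually.of_forall
      intro z
      simp only [Pi.zero_apply, hφ4]
      exact mul_nonneg (hg0 z) (by positivity)
  rw [e1, ← ENNReal.ofReal_mul hb, ← hR2]
  refine ofReal_integral_le_lintegral.trans ?_
  apply lintegral_mono
  intro z
  apply ENNReal.ofReal_le_ofReal
  exact RR_le (hg0 z) (hg1 z) (hG z).1 (hG z).2

end Pool.Agent.R293.RFK
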