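import Pool.Agent.R293.RFK.Basic

/-! The radial potential of the disc and its linear pullbacks. -/

namespace Pool.Agent.R293.RFK

open MeasureTheory Set Complex Topology
open scoped ENNReal ContDiff NNReal

/-- The function `1 / max(s, 1/4)`. -/
noncomputable def kk (s : ℝ) : ℝ := (max s (1 / 4))⁻¹

/-- The vector field `z / max(|z|², 1/4)`. -/
noncomputable def FF (z : ℂ) : ℂ := (kk (z.re ^ 2 + z.im ^ 2) : ℝ) * z

lemma FF_re (z : ℂ) : (FF z).re = kk (z.re ^ 2 + z.im ^ 2) * z.re := by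
  unfold FF; rw [Complex.re_ofReal_mul]

lemma FF_im (z : ℂ) : (FF z).im = kk (z.re ^ 2 + z.im ^ 2) * z.im := by
  unfold FF; rw [Complex.im_ofReal_mul]

lemma kk_of_le {s : ℝ} (h : s ≤ 1 / 4) : kk s = 4 := by
  unfold kk; rw [max_eq_right h]; norm_num

lemma kk_of_ge {s : ℝ} (h : 1 / 4 ≤ s) : kk s = s⁻¹ := by
  unfold kk; rw [max_eq_left h]

/-- Mixed case of the Lipschitz bound. -/
lemma lip_mixed {x y u v : ℝ} (h1 : x ^ 2 + y ^ 2 ≤ 1 / 4) (h2 : 1 / 4 ≤ u ^ 2 + v ^ 2) :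
    (4 * x - (u ^ 2 + v ^ 2)⁻¹ * u) ^ 2 + (4 * y - (u ^ 2 + v ^ 2)⁻¹ * v) ^ 2
      ≤ 16 * ((x - u) ^ 2 + (y - v) ^ 2) := by
  set s := u ^ 2 + v ^ 2 with hs
  have hs0 : 0 < s := by linarith
  set ρ := x * u + y * v with hρ
  have hcs : ρ ^ 2 ≤ (x ^ 2 + y ^ 2) * s := by
    rw [hρ, hs]; nlinarith [sq_nonneg (x * v - y * u)]
  have hcs2 : ρ ^ 2 ≤ s / 4 := by nlinarith
  have hkey : 8 * ρ ≤ 4 * s + 1 := by
    nlinarith [sq_nonneg (ρ - 1 / 2), sq_nonneg (ρ), hcs2]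
  have hinv : s⁻¹ * s = 1 := inv_mul_cancel₀ hs0.ne'
  have e1 : (4 * x - s⁻¹ * u) ^ 2 + (4 * y - s⁻¹ * v) ^ 2
      = 16 * (x ^ 2 + y ^ 2) - 8 * s⁻¹ * ρ + s⁻¹ := by
    have : s⁻¹ ^ 2 * s = s⁻¹ := by rw [pow_two, mul_assoc, hinv, mul_one]
    calc (4 * x - s⁻¹ * u) ^ 2 + (4 * y - s⁻¹ * v) ^ 2
        = 16 * (x ^ 2 + y ^ 2) - 8 * s⁻¹ * (x * u + y * v) + s⁻¹ ^ 2 * (u ^ 2 + v ^ 2) := by ring
      _ = _ := by rw [← hρ, ← hs, this]
  have e2 : 16 * ((x - u) ^ 2 + (y - v) ^ 2) = 16 * (x ^ 2 + y ^ 2) - 32 * ρ + 16 * s := by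
    rw [hρ, hs]; ring
  rw [e1, e2]
  have h3 : 0 ≤ (4 - s⁻¹) := by
    have : s⁻¹ ≤ 4 := by
      rw [inv_le_comm₀ hs0 (by norm_num)]
      linarith
    linarith
  have h4 : 0 ≤ (4 - s⁻¹) * (4 * s + 1 - 8 * ρ) := mul_nonneg h3 (by linarith)
  have h5 : (4 - s⁻¹) * (4 * s + 1 - 8 * ρ)
      = 16 * s + 4 - 32 * ρ - 4 * (s⁻¹ * s) - s⁻¹ + 8 * s⁻¹ * ρ := by ring
  rw [h5, hinv] at h4
  linarith

lemma lip_out {x y u v : ℝ} (h1 : 1 / 4 ≤ x ^ 2 + y ^ 2) (h2 : 1 / 4 ≤ u ^ 2 + v ^ 2) :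
    ((x ^ 2 + y ^ 2)⁻¹ * x - (u ^ 2 + v ^ 2)⁻¹ * u) ^ 2
      + ((x ^ 2 + y ^ 2)⁻¹ * y - (u ^ 2 + v ^ 2)⁻¹ * v) ^ 2
      ≤ 16 * ((x - u) ^ 2 + (y - v) ^ 2) := by
  have hr : 0 < x ^ 2 + y ^ 2 := by linarith
  have hs : 0 < u ^ 2 + v ^ 2 := by linarith
  have e : ((x ^ 2 + y ^ 2)⁻¹ * x - (u ^ 2 + v ^ 2)⁻¹ * u) ^ 2
      + ((x ^ 2 + y ^ 2)⁻¹ * y - (u ^ 2 + v ^ 2)⁻¹ * v) ^ 2
      = ((x - u) ^ 2 + (y - v) ^ 2) / ((x ^ 2 + y ^ 2) * (u ^ 2 + v ^ 2)) := by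
    field_simp
    ring
  rw [e, div_le_iff₀ (by positivity)]
  have : (1 : ℝ) ≤ 16 * ((x ^ 2 + y ^ 2) * (u ^ 2 + v ^ 2)) := by nlinarith
  have h0 : 0 ≤ (x - u) ^ 2 + (y - v) ^ 2 := by positivity
  nlinarith

lemma FF_lip (z w : ℂ) :
    ((FF z).re - (FF w).re) ^ 2 + ((FF z).im - (FF w).im) ^ 2
      ≤ 16 * ((z.re - w.re) ^ 2 + (z.im - w.im) ^ 2) := by
  rw [FF_re, FF_re, FF_im, FF_im]
  rcases le_total (z.re ^ 2 + z.im ^ 2) (1 / 4) with hz | hz <;>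
  rcases le_total (w.re ^ 2 + w.im ^ 2) (1 / 4) with hw | hw
  · rw [kk_of_le hz, kk_of_le hw]
    apply le_of_eq; ring
  · rw [kk_of_le hz, kk_of_ge hw]
    exact lip_mixed hz hw
  · rw [kk_of_ge hz, kk_of_le hw]
    have := lip_mixed hw hz
    calc _ = (4 * w.re - (z.re ^ 2 + z.im ^ 2)⁻¹ * z.re) ^ 2
          + (4 * w.im - (z.re ^ 2 + z.im ^ 2)⁻¹ * z.im) ^ 2 := by ring
      _ ≤ _ := this
      _ = _ := by ring
  · rw [kk_of_ge hz, kk_of_ge hw]
    exact lip_out hz hw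

lemma norm_sub_sq (z w : ℂ) : ‖z - w‖ ^ 2 = (z.re - w.re) ^ 2 + (z.im - w.im) ^ 2 := by
  rw [← Complex.normSq_eq_norm_sq, Complex.normSq_apply]
  simp; ring

lemma FF_lip_norm (z w : ℂ) : ‖FF z - FF w‖ ≤ 4 * ‖z - w‖ := by
  rw [← sq_le_sq₀ (norm_nonneg _) (by positivity), mul_pow, norm_sub_sq, norm_sub_sq]
  have := FF_lip z w
  linarith

lemma lipschitz_FF : LipschitzWith 4 FF := by
  apply LipschitzWith.of_dist_le_mul
  intro z w
  rw [dist_eq_norm, dist_eq_norm]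
  exact FF_lip_norm z w

lemma lipschitz_re : LipschitzWith 4 (fun z => (FF z).re) := by
  apply LipschitzWith.of_dist_le_mul
  intro z w
  rw [dist_eq_norm, dist_eq_norm, Real.norm_eq_abs, ← Complex.sub_re]
  exact (Complex.abs_re_le_norm _).trans (FF_lip_norm z w)

lemma lipschitz_im : LipschitzWith 4 (fun z => (FF z).im) := by
  apply LipschitzWith.of_dist_le_mul
  intro z w
  rw [dist_eq_norm, dist_eq_norm, Real.norm_eq_abs, ← Complex.sub_im]
  exact (Complex.abs_im_le_norm _).trans (FF_lip_norm z w)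

lemma FF_bound (z : ℂ) : ‖FF z‖ ≤ 4 * ‖z‖ := by
  have := FF_lip_norm z 0
  simpa [FF] using this

lemma lineDeriv_re_in {z : ℂ} (hz : z.re ^ 2 + z.im ^ 2 < 1 / 4) :
    lineDeriv ℝ (fun z => (FF z).re) z 1 = 4 := by
  have hev : (fun z => (FF z).re) =ᶠ[𝓝 z] fun z => 4 * z.re := by
    have : {w : ℂ | w.re ^ 2 + w.im ^ 2 < 1 / 4} ∈ 𝓝 z :=
      (isOpen_lt (by fun_prop) (by fun_prop)).mem_nhds hz
    filter_upwards [this] with w hw
    rw [FF_re, kk_of_le (le_of_lt hw)]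
  rw [hev.lineDeriv_eq]
  unfold lineDeriv
  have : (fun t : ℝ => 4 * (z + t • (1 : ℂ)).re) = fun t : ℝ => 4 * (z.re + t) := by
    funext t; simp
  rw [this]
  have h : HasDerivAt (fun t : ℝ => 4 * (z.re + t)) (4 * 1) 0 :=
    ((hasDerivAt_id (0 : ℝ)).const_add z.re).const_mul 4
  rw [h.deriv]; norm_num

lemma lineDeriv_im_in {z : ℂ} (hz : z.re ^ 2 + z.im ^ 2 < 1 / 4) :
    lineDeriv ℝ (fun z => (FF z).im) z I = 4 := by
  have hev : (fun z => (FF z).im) =ᶠ[𝓝 z] fun z => 4 * z.im := by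
    have : {w : ℂ | w.re ^ 2 + w.im ^ 2 < 1 / 4} ∈ 𝓝 z :=
      (isOpen_lt (by fun_prop) (by fun_prop)).mem_nhds hz
    filter_upwards [this] with w hw
    rw [FF_im, kk_of_le (le_of_lt hw)]
  rw [hev.lineDeriv_eq]
  unfold lineDeriv
  have : (fun t : ℝ => 4 * (z + t • I).im) = fun t : ℝ => 4 * (z.im + t) := by
    funext t; simp
  rw [this]
  have h : HasDerivAt (fun t : ℝ => 4 * (z.im + t)) (4 * 1) 0 :=
    ((hasDerivAt_id (0 : ℝ)).const_add z.im).const_mul 4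
  rw [h.deriv]; norm_num

lemma deriv_aux {x y : ℝ} (h : 0 < x ^ 2 + y ^ 2) :
    HasDerivAt (fun t : ℝ => ((x + t) ^ 2 + y ^ 2)⁻¹ * (x + t))
      ((y ^ 2 - x ^ 2) / (x ^ 2 + y ^ 2) ^ 2) 0 := by
  have h1 : HasDerivAt (fun t : ℝ => x + t) 1 0 := (hasDerivAt_id (0 : ℝ)).const_add x
  have h2 : HasDerivAt (fun t : ℝ => (x + t) ^ 2 + y ^ 2) (2 * (x + 0) ^ 1 * 1) 0 := by
    simpa using (h1.pow 2).add_const (y ^ 2)
  have h3 := (h2.inv (by simpa using h.ne')).mul h1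
  have e : (y ^ 2 - x ^ 2) / (x ^ 2 + y ^ 2) ^ 2
      = -(2 * (x + 0) ^ 1 * 1) / ((x + 0) ^ 2 + y ^ 2) ^ 2 * (x + 0)
        + ((x + 0) ^ 2 + y ^ 2)⁻¹ * 1 := by
    rw [add_zero]
    field_simp
    ring
  rw [e]
  exact h3

lemma lineDeriv_re_out {z : ℂ} (hz : 1 / 4 < z.re ^ 2 + z.im ^ 2) :
    lineDeriv ℝ (fun z => (FF z).re) z 1
      = (z.im ^ 2 - z.re ^ 2) / (z.re ^ 2 + z.im ^ 2) ^ 2 := by
  have hev : (fun z => (FF z).re) =ᶠ[𝓝 z] fun z => (z.re ^ 2 + z.im ^ 2)⁻¹ * z.re := by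
    have : {w : ℂ | 1 / 4 < w.re ^ 2 + w.im ^ 2} ∈ 𝓝 z :=
      (isOpen_lt (by fun_prop) (by fun_prop)).mem_nhds hz
    filter_upwards [this] with w hw
    rw [FF_re, kk_of_ge (le_of_lt hw)]
  rw [hev.lineDeriv_eq]
  unfold lineDeriv
  have : (fun t : ℝ => ((z + t • (1 : ℂ)).re ^ 2 + (z + t • (1 : ℂ)).im ^ 2)⁻¹
      * (z + t • (1 : ℂ)).re) = fun t : ℝ => ((z.re + t) ^ 2 + z.im ^ 2)⁻¹ * (z.re + t) := by
    funext t; simp
  rw [this]
  exact (deriv_aux (by linarith)).deriv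

lemma lineDeriv_im_out {z : ℂ} (hz : 1 / 4 < z.re ^ 2 + z.im ^ 2) :
    lineDeriv ℝ (fun z => (FF z).im) z I
      = (z.re ^ 2 - z.im ^ 2) / (z.re ^ 2 + z.im ^ 2) ^ 2 := by
  have hev : (fun z => (FF z).im) =ᶠ[𝓝 z] fun z => (z.re ^ 2 + z.im ^ 2)⁻¹ * z.im := by
    have : {w : ℂ | 1 / 4 < w.re ^ 2 + w.im ^ 2} ∈ 𝓝 z :=
      (isOpen_lt (by fun_prop) (by fun_prop)).mem_nhds hz
    filter_upwards [this] with w hw
    rw [FF_im, kk_of_ge (le_of_lt hw)]
  rw [hev.lineDeriv_eq]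
  unfold lineDeriv
  have : (fun t : ℝ => ((z + t • I).re ^ 2 + (z + t • I).im ^ 2)⁻¹
      * (z + t • I).im) = fun t : ℝ => ((z.im + t) ^ 2 + z.re ^ 2)⁻¹ * (z.im + t) := by
    funext t; simp [add_comm]
  rw [this, (deriv_aux (by linarith)).deriv, add_comm]

lemma ae_not_circle : ∀ᵐ z : ℂ, z.re ^ 2 + z.im ^ 2 ≠ 1 / 4 := by
  have h : volume (Metric.sphere (0 : ℂ) (1 / 2)) = 0 := Measure.addHaar_sphere _ _ _
  rw [measure_eq_zero_iff_ae_notMem] at h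
  filter_upwards [h] with z hz h1
  apply hz
  rw [mem_sphere_zero_iff_norm, ← sq_eq_sq₀ (norm_nonneg z) (by norm_num),
    ← Complex.normSq_eq_norm_sq, Complex.normSq_apply]
  linarith

lemma mem_half_ball (z : ℂ) : z ∈ Metric.ball (0 : ℂ) (1 / 2) ↔ z.re ^ 2 + z.im ^ 2 < 1 / 4 := by
  rw [mem_ball_zero_iff, ← sq_lt_sq₀ (norm_nonneg z) (by norm_num),
    ← Complex.normSq_eq_norm_sq, Complex.normSq_apply]
  constructor <;> intro h <;> linarith

lemma lipschitz_of_contDiff_compact {φ : ℂ → ℝ} (hφ : ContDiff ℝ ∞ φ) (hc : HasCompactSupport φ) :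
    ∃ D : ℝ≥0, LipschitzWith D φ :=
  hφ.lipschitzWith_of_hasCompactSupport hc (by simp)

/-- The radial vector field `FF` has divergence `8 · 1_{|z| < 1/2}` in the weak sense. -/
lemma weak_div (φ : ℂ → ℝ) (hφ : ContDiff ℝ ∞ φ) (hc : HasCompactSupport φ) :
    ∫ z, ((FF z).re * fderiv ℝ φ z 1 + (FF z).im * fderiv ℝ φ z I)
      = - (8 * ∫ z in Metric.ball (0 : ℂ) (1 / 2), φ z) := by
  obtain ⟨D, hD⟩ := lipschitz_of_contDiff_compact hφ hc
  have hdiff : Differentiable ℝ φ := hφ.differentiable (by simp)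
  have h1 := LipschitzWith.integral_lineDeriv_mul_eq (μ := (volume : Measure ℂ)) lipschitz_re hD hc 1
  have h2 := LipschitzWith.integral_lineDeriv_mul_eq (μ := (volume : Measure ℂ)) lipschitz_im hD hc I
  have e1 : ∀ z v, lineDeriv ℝ φ z (-v) = - fderiv ℝ φ z v := by
    intro z v
    rw [(hdiff z).lineDeriv_eq_fderiv, map_neg]
  simp only [e1] at h1 h2
  have hcont : ∀ v : ℂ, Continuous (fun z => fderiv ℝ φ z v) := fun v =>
    (hφ.continuous_fderiv (by simp)).clm_apply continuous_const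
  have hsupp : ∀ v : ℂ, HasCompactSupport (fun z => fderiv ℝ φ z v) := fun v =>
    hc.fderiv_apply (𝕜 := ℝ) v
  have i1 : Integrable (fun z => (FF z).re * fderiv ℝ φ z 1) :=
    (lipschitz_re.continuous.mul (hcont 1)).integrable_of_hasCompactSupport
      ((hsupp 1).mul_left)
  have i2 : Integrable (fun z => (FF z).im * fderiv ℝ φ z I) :=
    (lipschitz_im.continuous.mul (hcont I)).integrable_of_hasCompactSupport
      ((hsupp I).mul_left)
  have j1 : Integrable (fun z => lineDeriv ℝ (fun z => (FF z).re) z 1 * φ z) := by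
    have := (lipschitz_re.locallyIntegrable_lineDeriv (μ := (volume : Measure ℂ))
      1).integrable_smul_left_of_hasCompactSupport hφ.continuous hc
    refine this.congr (Filter.Eventually.of_forall fun z => ?_)
    simp only [smul_eq_mul]; ring
  have j2 : Integrable (fun z => lineDeriv ℝ (fun z => (FF z).im) z I * φ z) := by
    have := (lipschitz_im.locallyIntegrable_lineDeriv (μ := (volume : Measure ℂ))
      I).integrable_smul_left_of_hasCompactSupport hφ.continuous hc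
    refine this.congr (Filter.Eventually.of_forall fun z => ?_)
    simp only [smul_eq_mul]; ring
  have hsum : ∫ z, ((FF z).re * fderiv ℝ φ z 1 + (FF z).im * fderiv ℝ φ z I)
      = - ∫ z, (lineDeriv ℝ (fun z => (FF z).re) z 1 * φ z
          + lineDeriv ℝ (fun z => (FF z).im) z I * φ z) := by
    rw [integral_add i1 i2, integral_add j1 j2, h1, h2]
    rw [show (fun z => -(fderiv ℝ φ z) 1 * (FF z).re) = fun z => - ((FF z).re * fderiv ℝ φ z 1) by
      funext z; ring, show (fun z => -(fderiv ℝ φ z) I * (FF z).im)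
        = fun z => - ((FF z).im * fderiv ℝ φ z I) by funext z; ring, integral_neg, integral_neg]
    ring
  rw [hsum]
  congr 1
  rw [← integral_const_mul, ← integral_indicator Metric.isOpen_ball.measurableSet]
  apply integral_congr_ae
  filter_upwards [ae_not_circle] with z hz
  rcases lt_or_gt_of_ne hz with h | h
  · rw [indicator_of_mem ((mem_half_ball z).mpr h), lineDeriv_re_in h, lineDeriv_im_in h]
    ring
  · rw [indicator_of_notMem (by rw [mem_half_ball]; exact not_lt.mpr h.le), lineDeriv_re_out h,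
      lineDeriv_im_out h]
    ring

/-- First component of the pulled back potential. -/
noncomputable def pot1 (p q m : ℝ) (w : ℂ) : ℝ := -(m * (FF (dg p⁻¹ q⁻¹ w)).im) / p

/-- Second component of the pulled back potential. -/
noncomputable def pot2 (p q m : ℝ) (w : ℂ) : ℝ := m * (FF (dg p⁻¹ q⁻¹ w)).re / q

lemma continuous_pot1 (p q m : ℝ) : Continuous (pot1 p q m) := by
  unfold pot1
  exact ((continuous_const.mul (lipschitz_im.continuous.comp
    (dg p⁻¹ q⁻¹).continuous)).neg).div_const p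

lemma continuous_pot2 (p q m : ℝ) : Continuous (pot2 p q m) := by
  unfold pot2
  exact (continuous_const.mul (lipschitz_re.continuous.comp
    (dg p⁻¹ q⁻¹).continuous)).div_const q

/-- The pulled back potential has weak curl `(8 m / (p q)) 1_K`, `K` the ellipse with semi-axes
`p / 2`, `q / 2`. -/
lemma weak_curl {p q : ℝ} (hp : 0 < p) (hq : 0 < q) (m : ℝ) (φ : ℂ → ℝ) (hφ : ContDiff ℝ ∞ φ)
    (hc : HasCompactSupport φ) :
    ∫ w, (pot2 p q m w * fderiv ℝ φ w 1 - pot1 p q m w * fderiv ℝ φ w I)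
      = - (8 * m / (p * q) * ∫ w in ell (p / 2) (q / 2), φ w) := by
  set ψ : ℂ → ℝ := fun z => φ (dg p q z) with hψ
  have hψc : ContDiff ℝ ∞ ψ := hφ.comp (dg p q).contDiff
  have hψs : HasCompactSupport ψ := hc.comp_homeomorph (dgH p q hp hq)
  have hwd := weak_div ψ hψc hψs
  have hfd : ∀ z, HasFDerivAt ψ ((fderiv ℝ φ (dg p q z)).comp (dg p q)) z := fun z =>
    ((hφ.differentiable (by simp)) (dg p q z)).hasFDerivAt.comp z (dg p q).hasFDerivAt
  have f1 : ∀ z, fderiv ℝ ψ z 1 = p * fderiv ℝ φ (dg p q z) 1 := by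
    intro z
    rw [(hfd z).fderiv, ContinuousLinearMap.comp_apply, dg_one,
      show ((p : ℝ) : ℂ) = p • (1 : ℂ) by simp, map_smul, smul_eq_mul]
  have f2 : ∀ z, fderiv ℝ ψ z I = q * fderiv ℝ φ (dg p q z) I := by
    intro z
    rw [(hfd z).fderiv, ContinuousLinearMap.comp_apply, dg_I,
      show ((q : ℝ) : ℂ) * I = q • I by simp, map_smul, smul_eq_mul]
  have h1 := integral_comp_dg hp hq
    (fun w => pot2 p q m w * fderiv ℝ φ w 1 - pot1 p q m w * fderiv ℝ φ w I)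
  have h2 : ∀ z, pot2 p q m (dg p q z) * fderiv ℝ φ (dg p q z) 1
      - pot1 p q m (dg p q z) * fderiv ℝ φ (dg p q z) I
      = (m / (p * q)) * ((FF z).re * fderiv ℝ ψ z 1 + (FF z).im * fderiv ℝ ψ z I) := by
    intro z
    unfold pot1 pot2
    rw [dg_inv_left hp hq, f1, f2]
    field_simp
    ring
  simp only [h2] at h1
  rw [integral_const_mul, hwd] at h1
  have h3 := integral_comp_dg hp hq ((ell (p / 2) (q / 2)).indicator φ)
  rw [integral_indicator (isOpen_ell _ _).measurableSet] at h3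
  have h4 : (fun z => (ell (p / 2) (q / 2)).indicator φ (dg p q z))
      = (Metric.ball (0 : ℂ) (1 / 2)).indicator ψ := by
    funext z
    have hmem : dg p q z ∈ ell (p / 2) (q / 2) ↔ z ∈ Metric.ball (0 : ℂ) (1 / 2) := by
      rw [mem_half_ball, mem_ell_iff]
      have e : ((dg p q z).re / (p / 2)) ^ 2 + ((dg p q z).im / (q / 2)) ^ 2
          = 4 * (z.re ^ 2 + z.im ^ 2) := by
        rw [dg_re, dg_im]; field_simp; ring
      rw [e]
      constructor <;> intro h <;> linarith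
    by_cases hz : z ∈ Metric.ball (0 : ℂ) (1 / 2)
    · rw [indicator_of_mem hz, indicator_of_mem (hmem.mpr hz)]
    · rw [indicator_of_notMem hz, indicator_of_notMem (fun h => hz (hmem.mp h))]
  rw [h4, integral_indicator Metric.isOpen_ball.measurableSet] at h3
  rw [h3] at h1
  have hpq : p * q ≠ 0 := by positivity
  have h5 : ∫ w, (pot2 p q m w * fderiv ℝ φ w 1 - pot1 p q m w * fderiv ℝ φ w I)
      = (p * q) * ((p * q)⁻¹ * ∫ w, (pot2 p q m w * fderiv ℝ φ w 1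
        - pot1 p q m w * fderiv ℝ φ w I)) := by
    rw [← mul_assoc, mul_inv_cancel₀ hpq, one_mul]
  rw [h5, ← h1]
  field_simp

end Pool.Agent.R293.RFK
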