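import Pool.Agent.R293.RFK.Basic
import Pool.Agent.R293.RFK.Comm

/-! The homotopy estimate: mass is controlled by the mass in the core and the energy. -/

namespace Pool.Agent.R293.RFK

open MeasureTheory Set Complex Topology
open scoped ContDiff NNReal ENNReal

/-- The contraction. -/
noncomputable def SS (α β : ℝ) (t : ℝ) : ℂ →L[ℝ] ℂ := dg (α + t * (1 - α)) (β + t * (1 - β))

/-- The velocity of the contraction. -/
noncomputable def vel (α β : ℝ) (z : ℂ) : ℂ := ⟨(1 - α) * z.re, (1 - β) * z.im⟩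

lemma SS_eq (α β t : ℝ) (z : ℂ) : SS α β t z = dg α β z + t • vel α β z := by
  unfold SS vel
  apply Complex.ext <;> simp <;> ring

lemma SS_one (α β : ℝ) (z : ℂ) : SS α β 1 z = z := by
  unfold SS
  apply Complex.ext <;> simp

lemma SS_zero (α β : ℝ) (z : ℂ) : SS α β 0 z = dg α β z := by
  unfold SS
  apply Complex.ext <;> simp

lemma hasDerivAt_SS (α β t : ℝ) (z : ℂ) :
    HasDerivAt (fun t => SS α β t z) (vel α β z) t := by
  have h : (fun t => SS α β t z) = fun t => dg α β z + t • vel α β z := by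
    funext s; exact SS_eq α β s z
  rw [h]
  simpa using ((hasDerivAt_id t).smul_const (vel α β z)).const_add (dg α β z)

lemma fderiv_vel (u : ℂ → ℂ) (z v : ℂ) :
    fderiv ℝ u z v = v.re * fderiv ℝ u z 1 + v.im * fderiv ℝ u z I := by
  conv_lhs => rw [show v = v.re • (1 : ℂ) + v.im • I by apply Complex.ext <;> simp]
  rw [map_add, map_smul, map_smul, Complex.real_smul, Complex.real_smul]

/-- Pointwise bound of the derivative of `|u|²` along the homotopy. -/
lemma deriv_bound {A₁ A₂ : ℂ → ℝ} {u : ℂ → ℂ} {w v : ℂ} {κ δ : ℝ} (hδ : 0 < δ)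
    (hv1 : |v.re| ≤ κ) (hv2 : |v.im| ≤ κ) :
    |2 * ((u w).re * (fderiv ℝ u w v).re + (u w).im * (fderiv ℝ u w v).im)|
      ≤ κ * (2 * δ * ‖u w‖ ^ 2 + (‖D1 A₁ u w‖ ^ 2 + ‖D2 A₂ u w‖ ^ 2) / δ) := by
  have hκ : 0 ≤ κ := (abs_nonneg _).trans hv1
  have e0 : 2 * ((u w).re * (fderiv ℝ u w v).re + (u w).im * (fderiv ℝ u w v).im)
      = v.re * (2 * ((u w).re * (D1 A₁ u w).re + (u w).im * (D1 A₁ u w).im))
        + v.im * (2 * ((u w).re * (D2 A₂ u w).re + (u w).im * (D2 A₂ u w).im)) := by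
    rw [fderiv_vel u w v]
    unfold D1 D2
    simp only [Complex.add_re, Complex.add_im, Complex.sub_re, Complex.sub_im, Complex.mul_re,
      Complex.mul_im, Complex.I_re, Complex.I_im, Complex.ofReal_re, Complex.ofReal_im]
    ring
  have hb : ∀ a b c d : ℝ, |2 * (a * c + b * d)| ≤ δ * (a ^ 2 + b ^ 2) + (c ^ 2 + d ^ 2) / δ := by
    intro a b c d
    have hd : (c ^ 2 + d ^ 2) / δ = δ * ((c / δ) ^ 2 + (d / δ) ^ 2) := by field_simp
    have h1 : 2 * (a * c + b * d) = δ * (2 * (a * (c / δ) + b * (d / δ))) := by field_simp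
    rw [hd, h1, abs_mul, abs_of_pos hδ, ← mul_add]
    apply mul_le_mul_of_nonneg_left _ hδ.le
    rw [abs_le]
    constructor
    · nlinarith [sq_nonneg (a + c / δ), sq_nonneg (b + d / δ)]
    · nlinarith [sq_nonneg (a - c / δ), sq_nonneg (b - d / δ)]
  rw [e0, norm_sq_eq, norm_sq_eq, norm_sq_eq]
  have h1 := hb (u w).re (u w).im (D1 A₁ u w).re (D1 A₁ u w).im
  have h2 := hb (u w).re (u w).im (D2 A₂ u w).re (D2 A₂ u w).im
  refine (abs_add_le _ _).trans ?_
  rw [abs_mul v.re, abs_mul v.im]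
  have h3 := mul_le_mul hv1 h1 (abs_nonneg _) hκ
  have h4 := mul_le_mul hv2 h2 (abs_nonneg _) hκ
  refine (add_le_add h3 h4).trans (le_of_eq ?_)
  ring

/-- The pointwise homotopy estimate. -/
lemma homotopy_pointwise {Ω : Set ℂ} (hΩ : IsOpen Ω) {A₁ A₂ : ℂ → ℝ} {u : ℂ → ℂ}
    (hu : ContDiffOn ℝ ∞ u Ω) {α β κ δ : ℝ} (hδ : 0 < δ) {z : ℂ}
    (hz : ∀ t ∈ Icc (0 : ℝ) 1, SS α β t z ∈ Ω)
    (hv1 : |(vel α β z).re| ≤ κ) (hv2 : |(vel α β z).im| ≤ κ) :
    ENNReal.ofReal (‖u z‖ ^ 2) ≤ ENNReal.ofReal (‖u (dg α β z)‖ ^ 2)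
      + ∫⁻ t in Icc (0 : ℝ) 1, ENNReal.ofReal (κ * (2 * δ * ‖u (SS α β t z)‖ ^ 2
          + (‖D1 A₁ u (SS α β t z)‖ ^ 2 + ‖D2 A₂ u (SS α β t z)‖ ^ 2) / δ)) := by
  set F : ℝ → ℝ := fun t => (u (SS α β t z)).re ^ 2 + (u (SS α β t z)).im ^ 2 with hF
  set F' : ℝ → ℝ := fun t => 2 * ((u (SS α β t z)).re
      * (fderiv ℝ u (SS α β t z) (vel α β z)).re
    + (u (SS α β t z)).im * (fderiv ℝ u (SS α β t z) (vel α β z)).im) with hF'
  have hder : ∀ t ∈ Icc (0 : ℝ) 1, HasDerivAt F (F' t) t := by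
    intro t ht
    have hmem := hz t ht
    have hud : HasFDerivAt u (fderiv ℝ u (SS α β t z)) (SS α β t z) :=
      ((hu.contDiffAt (hΩ.mem_nhds hmem)).differentiableAt (by simp)).hasFDerivAt
    have h1 : HasDerivAt (fun t => u (SS α β t z)) (fderiv ℝ u (SS α β t z) (vel α β z)) t :=
      hud.comp_hasDerivAt t (hasDerivAt_SS α β t z)
    have h2 : HasDerivAt (fun t => (u (SS α β t z)).re)
        (fderiv ℝ u (SS α β t z) (vel α β z)).re t :=
      Complex.reCLM.hasFDerivAt.comp_hasDerivAt t h1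
    have h3 : HasDerivAt (fun t => (u (SS α β t z)).im)
        (fderiv ℝ u (SS α β t z) (vel α β z)).im t :=
      Complex.imCLM.hasFDerivAt.comp_hasDerivAt t h1
    have h4 := (h2.fun_pow 2).fun_add (h3.fun_pow 2)
    refine h4.congr_deriv ?_
    rw [hF']
    push_cast
    ring
  have hcontS : Continuous (fun t : ℝ => SS α β t z) := by
    have h : (fun t => SS α β t z) = fun t => dg α β z + t • vel α β z := by
      funext s; exact SS_eq α β s z
    rw [h]; fun_prop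
  have hcF' : ContinuousOn F' (Icc 0 1) := by
    have hmaps : MapsTo (fun t : ℝ => SS α β t z) (Icc 0 1) Ω := hz
    have c1 : ContinuousOn (fun t => u (SS α β t z)) (Icc 0 1) :=
      hu.continuousOn.comp hcontS.continuousOn hmaps
    have c2 : ContinuousOn (fun t => fderiv ℝ u (SS α β t z)) (Icc 0 1) :=
      (hu.continuousOn_fderiv_of_isOpen hΩ (by simp)).comp hcontS.continuousOn hmaps
    have c3 : ContinuousOn (fun t => fderiv ℝ u (SS α β t z) (vel α β z)) (Icc 0 1) :=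
      c2.clm_apply continuousOn_const
    have r1 : ContinuousOn (fun t => (u (SS α β t z)).re) (Icc 0 1) :=
      Complex.continuous_re.comp_continuousOn c1
    have r2 : ContinuousOn (fun t => (u (SS α β t z)).im) (Icc 0 1) :=
      Complex.continuous_im.comp_continuousOn c1
    have r3 : ContinuousOn (fun t => (fderiv ℝ u (SS α β t z) (vel α β z)).re) (Icc 0 1) :=
      Complex.continuous_re.comp_continuousOn c3
    have r4 : ContinuousOn (fun t => (fderiv ℝ u (SS α β t z) (vel α β z)).im) (Icc 0 1) :=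
      Complex.continuous_im.comp_continuousOn c3
    exact continuousOn_const.mul ((r1.mul r3).add (r2.mul r4))
  have hftc : ∫ t in (0 : ℝ)..1, F' t = F 1 - F 0 := by
    apply intervalIntegral.integral_eq_sub_of_hasDerivAt
    · intro t ht
      rw [uIcc_of_le (by norm_num)] at ht
      exact hder t ht
    · apply ContinuousOn.intervalIntegrable
      rw [uIcc_of_le (by norm_num)]
      exact hcF'
  have hF1 : F 1 = ‖u z‖ ^ 2 := by
    simp only [hF, SS_one, norm_sq_eq]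
  have hF0 : F 0 = ‖u (dg α β z)‖ ^ 2 := by
    simp only [hF, SS_zero, norm_sq_eq]
  have hsplit : ‖u z‖ ^ 2 = ‖u (dg α β z)‖ ^ 2 + ∫ t in Icc (0 : ℝ) 1, F' t := by
    rw [integral_Icc_eq_integral_Ioc, ← intervalIntegral.integral_of_le (by norm_num), hftc, hF1,
      hF0]
    ring
  rw [hsplit]
  refine ENNReal.ofReal_add_le.trans ?_
  gcongr
  calc ENNReal.ofReal (∫ t in Icc (0 : ℝ) 1, F' t)
      ≤ ENNReal.ofReal ‖∫ t in Icc (0 : ℝ) 1, F' t‖ :=
        ENNReal.ofReal_le_ofReal (Real.le_norm_self _)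
    _ = ‖∫ t in Icc (0 : ℝ) 1, F' t‖ₑ := ofReal_norm _
    _ ≤ ∫⁻ t in Icc (0 : ℝ) 1, ‖F' t‖ₑ := enorm_integral_le_lintegral_enorm _
    _ ≤ _ := by
        apply lintegral_mono
        intro t
        simp only []
        rw [← ofReal_norm, Real.norm_eq_abs]
        exact ENNReal.ofReal_le_ofReal (deriv_bound hδ hv1 hv2)

/-- Density appearing in the homotopy estimate. -/
noncomputable def dens (κ δ : ℝ) (A₁ A₂ : ℂ → ℝ) (u : ℂ → ℂ) (w : ℂ) : ℝ :=
  κ * (2 * δ * ‖u w‖ ^ 2 + (‖D1 A₁ u w‖ ^ 2 + ‖D2 A₂ u w‖ ^ 2) / δ)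

lemma measurable_cut {Ω : Set ℂ} (hΩ : MeasurableSet Ω) {u : ℂ → ℂ} (hu : ContinuousOn u Ω) :
    Measurable (Ω.indicator u) := by
  classical
  have h := ContinuousOn.measurable_piecewise (f := u) (g := (0 : ℂ → ℂ)) hu
    continuousOn_const hΩ
  rwa [Set.piecewise_eq_indicator] at h

lemma measurable_dens {Ω : Set ℂ} (hΩ : MeasurableSet Ω) {A₁ A₂ : ℂ → ℝ} {u : ℂ → ℂ}
    (hu : ContinuousOn u Ω) (hA1 : Measurable A₁) (hA2 : Measurable A₂) (κ δ : ℝ) :
    Measurable (Ω.indicator (fun w => ENNReal.ofReal (dens κ δ A₁ A₂ u w))) := by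
  have hũ := measurable_cut hΩ hu
  have m1 : Measurable (fun w => fderiv ℝ u w 1) := measurable_fderiv_apply_const ℝ u 1
  have m2 : Measurable (fun w => fderiv ℝ u w I) := measurable_fderiv_apply_const ℝ u I
  have a1 : Measurable (fun w => ((A₁ w : ℝ) : ℂ)) := Complex.measurable_ofReal.comp hA1
  have a2 : Measurable (fun w => ((A₂ w : ℝ) : ℂ)) := Complex.measurable_ofReal.comp hA2
  have e : Ω.indicator (fun w => ENNReal.ofReal (dens κ δ A₁ A₂ u w))
      = Ω.indicator (fun w => ENNReal.ofReal (κ * (2 * δ * ‖Ω.indicator u w‖ ^ 2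
        + (‖fderiv ℝ u w 1 - I * A₁ w * Ω.indicator u w‖ ^ 2
          + ‖fderiv ℝ u w I - I * A₂ w * Ω.indicator u w‖ ^ 2) / δ))) := by
    apply Set.indicator_congr
    intro w hw
    simp only [Set.indicator_of_mem hw]
    rfl
  rw [e]
  apply Measurable.indicator _ hΩ
  apply ENNReal.measurable_ofReal.comp
  have b1 : Measurable (fun w => fderiv ℝ u w 1 - I * A₁ w * Ω.indicator u w) :=
    m1.sub ((a1.const_mul I).mul hũ)
  have b2 : Measurable (fun w => fderiv ℝ u w I - I * A₂ w * Ω.indicator u w) :=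
    m2.sub ((a2.const_mul I).mul hũ)
  exact (((hũ.norm.pow_const 2).const_mul (2 * δ)).add
    (((b1.norm.pow_const 2).add (b2.norm.pow_const 2)).div_const δ)).const_mul κ

lemma continuous_vel (α β : ℝ) : Continuous (vel α β) := by
  have : vel α β = dg (1 - α) (1 - β) := by
    funext z; apply Complex.ext <;> simp [vel]
  rw [this]; exact (dg (1 - α) (1 - β)).continuous

lemma continuous_SS (α β : ℝ) : Continuous (fun p : ℂ × ℝ => SS α β p.2 p.1) := by
  have h : (fun p : ℂ × ℝ => SS α β p.2 p.1)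
      = fun p : ℂ × ℝ => dg α β p.1 + p.2 • vel α β p.1 := by
    funext p; exact SS_eq α β p.2 p.1
  rw [h]
  have := (continuous_vel α β).comp (continuous_fst (X := ℂ) (Y := ℝ))
  have h2 := (dg α β).continuous.comp (continuous_fst (X := ℂ) (Y := ℝ))
  exact h2.add (continuous_snd.smul this)

/-- The integrated homotopy estimate. -/
theorem homotopy_bound {Ω K : Set ℂ} (hΩ : IsOpen Ω) (hK : MeasurableSet K) (hKΩ : K ⊆ Ω)
    {A₁ A₂ : ℂ → ℝ} {u : ℂ → ℂ} (hu : ContDiffOn ℝ ∞ u Ω) (hA1 : Measurable A₁)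
    (hA2 : Measurable A₂) {α β κ δ : ℝ} (hδ : 0 < δ) (hα : 0 < α) (hα1 : α ≤ 1) (hβ : 0 < β)
    (hβ1 : β ≤ 1) (hz : ∀ z ∈ Ω, ∀ t ∈ Icc (0 : ℝ) 1, SS α β t z ∈ Ω)
    (hz0 : ∀ z ∈ Ω, dg α β z ∈ K) (hv : ∀ z ∈ Ω, |(vel α β z).re| ≤ κ ∧ |(vel α β z).im| ≤ κ) :
    ∫⁻ z in Ω, ENNReal.ofReal (‖u z‖ ^ 2) ≤
      ENNReal.ofReal ((α * β)⁻¹) * (∫⁻ z in K, ENNReal.ofReal (‖u z‖ ^ 2))
      + ENNReal.ofReal ((α * β)⁻¹) * (∫⁻ z in Ω, ENNReal.ofReal (dens κ δ A₁ A₂ u z)) := by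
  set H : ℂ → ℝ≥0∞ := Ω.indicator (fun w => ENNReal.ofReal (dens κ δ A₁ A₂ u w)) with hH
  have hHm : Measurable H :=
    measurable_dens hΩ.measurableSet hu.continuousOn hA1 hA2 κ δ
  have hHint : ∫⁻ z, H z = ∫⁻ z in Ω, ENNReal.ofReal (dens κ δ A₁ A₂ u z) :=
    lintegral_indicator hΩ.measurableSet _
  -- the pointwise estimate
  have h1 : ∫⁻ z in Ω, ENNReal.ofReal (‖u z‖ ^ 2) ≤
      ∫⁻ z in Ω, (ENNReal.ofReal (‖u (dg α β z)‖ ^ 2)
        + ∫⁻ t in Icc (0 : ℝ) 1, H (SS α β t z)) := by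
    apply setLIntegral_mono' hΩ.measurableSet
    intro z hzΩ
    refine (homotopy_pointwise hΩ (A₁ := A₁) (A₂ := A₂) hu hδ (hz z hzΩ) (hv z hzΩ).1
      (hv z hzΩ).2).trans ?_
    gcongr 1
    apply setLIntegral_mono' measurableSet_Icc
    intro t ht
    rw [hH, Set.indicator_of_mem (hz z hzΩ t ht)]
    exact le_rfl
  -- first term
  have hKm : Measurable (K.indicator (fun w => ENNReal.ofReal (‖Ω.indicator u w‖ ^ 2))) := by
    apply Measurable.indicator _ hK
    exact ENNReal.measurable_ofReal.comp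
      ((measurable_cut hΩ.measurableSet hu.continuousOn).norm.pow_const 2)
  have hfirst : ∫⁻ z in Ω, ENNReal.ofReal (‖u (dg α β z)‖ ^ 2)
      ≤ ENNReal.ofReal ((α * β)⁻¹) * ∫⁻ z in K, ENNReal.ofReal (‖u z‖ ^ 2) := by
    have e1 : ∫⁻ z in K, ENNReal.ofReal (‖u z‖ ^ 2)
        = ∫⁻ z, K.indicator (fun w => ENNReal.ofReal (‖Ω.indicator u w‖ ^ 2)) z := by
      rw [lintegral_indicator hK]
      apply setLIntegral_congr_fun hK
      intro z hzK
      simp only [Set.indicator_of_mem (hKΩ hzK)]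
    rw [e1, ← lintegral_comp_dg hα hβ hKm]
    calc ∫⁻ z in Ω, ENNReal.ofReal (‖u (dg α β z)‖ ^ 2)
        = ∫⁻ z in Ω, K.indicator (fun w => ENNReal.ofReal (‖Ω.indicator u w‖ ^ 2)) (dg α β z) := by
          apply setLIntegral_congr_fun hΩ.measurableSet
          intro z hzΩ
          simp only [Set.indicator_of_mem (hz0 z hzΩ), Set.indicator_of_mem (hKΩ (hz0 z hzΩ))]
      _ ≤ _ := setLIntegral_le_lintegral _ _
  -- second term
  have hmeas2 : Measurable (fun p : ℂ × ℝ => H (SS α β p.2 p.1)) :=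
    hHm.comp (continuous_SS α β).measurable
  have hsecond : ∫⁻ z in Ω, ∫⁻ t in Icc (0 : ℝ) 1, H (SS α β t z)
      ≤ ENNReal.ofReal ((α * β)⁻¹) * ∫⁻ z, H z := by
    rw [lintegral_lintegral_swap hmeas2.aemeasurable]
    calc ∫⁻ t in Icc (0 : ℝ) 1, ∫⁻ z in Ω, H (SS α β t z)
        ≤ ∫⁻ _t in Icc (0 : ℝ) 1, ENNReal.ofReal ((α * β)⁻¹) * ∫⁻ z, H z := by
          apply setLIntegral_mono' measurableSet_Icc
          intro t ht
          have hx : α ≤ α + t * (1 - α) := by nlinarith [ht.1]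
          have hy : β ≤ β + t * (1 - β) := by nlinarith [ht.1]
          refine (setLIntegral_le_lintegral _ _).trans ?_
          have := lintegral_comp_dg (p := α + t * (1 - α)) (q := β + t * (1 - β))
            (lt_of_lt_of_le hα hx) (lt_of_lt_of_le hβ hy) hHm
          have h2 : ∫⁻ z, H (SS α β t z)
              = ENNReal.ofReal (((α + t * (1 - α)) * (β + t * (1 - β)))⁻¹) * ∫⁻ z, H z := this
          rw [h2]
          have hx0 : 0 < α + t * (1 - α) := lt_of_lt_of_le hα hx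
          gcongr
      _ = ENNReal.ofReal ((α * β)⁻¹) * ∫⁻ z, H z := by
          simp
  have hmeasInner : Measurable (fun z => ∫⁻ t in Icc (0 : ℝ) 1, H (SS α β t z)) :=
    hmeas2.lintegral_prod_right'
  calc ∫⁻ z in Ω, ENNReal.ofReal (‖u z‖ ^ 2)
      ≤ _ := h1
    _ = (∫⁻ z in Ω, ENNReal.ofReal (‖u (dg α β z)‖ ^ 2))
        + (∫⁻ z in Ω, ∫⁻ t in Icc (0 : ℝ) 1, H (SS α β t z)) := lintegral_add_right _ hmeasInner
    _ ≤ _ := by
        rw [← hHint]
        exact add_le_add hfirst hsecond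

end Pool.Agent.R293.RFK
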