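import Pool.Agent.R293.RFK.Homotopy
import Pool.Agent.R293.RFK.Curl

/-! The lower bound on elongated ellipses. -/

namespace Pool.Agent.R293.RFK

open MeasureTheory Set Complex Topology
open scoped ContDiff NNReal ENNReal

/-- Cutoff between two level sets of `rho a c`. -/
noncomputable def cut (a c r₀ r₁ : ℝ) (z : ℂ) : ℝ := Real.smoothTransition ((r₁ - rho a c z) / (r₁ - r₀))

lemma contDiff_cut (a c r₀ r₁ : ℝ) : ContDiff ℝ ∞ (cut a c r₀ r₁) := by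
  unfold cut
  exact Real.smoothTransition.contDiff.comp ((contDiff_const.sub (contDiff_rho a c)).div_const _)

lemma cut_one {a c r₀ r₁ : ℝ} (h : r₀ < r₁) {z : ℂ} (hz : rho a c z ≤ r₀) :
    cut a c r₀ r₁ z = 1 := by
  unfold cut
  apply Real.smoothTransition.one_of_one_le
  rw [le_div_iff₀ (by linarith)]
  linarith

lemma cut_zero {a c r₀ r₁ : ℝ} (h : r₀ < r₁) {z : ℂ} (hz : r₁ ≤ rho a c z) :
    cut a c r₀ r₁ z = 0 := by
  unfold cut
  apply Real.smoothTransition.zero_of_nonpos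
  apply div_nonpos_of_nonpos_of_nonneg <;> linarith

lemma tsupport_cut {a c r₀ r₁ : ℝ} (h : r₀ < r₁) :
    tsupport (cut a c r₀ r₁) ⊆ {z | rho a c z ≤ r₁} := by
  apply closure_minimal
  · intro z hz
    by_contra hcon
    exact hz (cut_zero h (le_of_not_ge hcon))
  · exact isClosed_le (contDiff_rho a c).continuous continuous_const

lemma rho_lt_iff {a c : ℝ} {z : ℂ} : z ∈ ell a c ↔ rho a c z < 1 := Iff.rfl

lemma compact_cut {a c r₀ r₁ : ℝ} (ha : 0 < a) (hc : 0 < c) (h : r₀ < r₁) (h1 : r₁ < 1) :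
    HasCompactSupport (cut a c r₀ r₁) := by
  apply (Metric.isCompact_of_isClosed_isBounded (isClosed_tsupport _) _)
  apply (bounded_ell ha hc).subset
  intro z hz
  exact rho_lt_iff.mpr (lt_of_le_of_lt (tsupport_cut h hz) h1)

/-- For a smooth cutoff, a bound of the partial derivatives. -/
lemma exists_grad_bound {g : ℂ → ℝ} (hg : ContDiff ℝ ∞ g) (hc : HasCompactSupport g) :
    ∃ G : ℝ, 0 ≤ G ∧ ∀ z, |fderiv ℝ g z 1| ≤ G ∧ |fderiv ℝ g z I| ≤ G := by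
  obtain ⟨C, hC⟩ := (hc.fderiv ℝ).exists_bound_of_continuous (hg.continuous_fderiv (by simp))
  refine ⟨C, (norm_nonneg _).trans (hC 0), fun z => ⟨?_, ?_⟩⟩
  · have := (fderiv ℝ g z).le_opNorm 1
    rw [norm_one, mul_one] at this
    exact this.trans (hC z)
  · have := (fderiv ℝ g z).le_opNorm I
    rw [Complex.norm_I, mul_one] at this
    exact this.trans (hC z)

/-- Real-number algebra behind the lower bound. -/
lemma final_algebra {N P E G b c : ℝ} (hN : 0 ≤ N) (hE : 0 ≤ E) (hG : 0 ≤ G) (hc : 0 < c)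
    (hc2 : c ^ 2 ≤ 1 / 2) (hb : 8 * (1 + G) ≤ b * c ^ 2)
    (h1 : b * P ≤ (1 + G / 2) * E + G * N) (h2 : N ≤ 4 * P + N / 2 + 64 * c ^ 2 * E) :
    N ≤ 258 * c ^ 2 * E := by
  have hc2' : 0 < c ^ 2 := by positivity
  have hb0 : 0 < b := by
    by_contra hcon
    have : b * c ^ 2 ≤ 0 := mul_nonpos_of_nonpos_of_nonneg (le_of_not_gt hcon) hc2'.le
    linarith
  -- 8 P ≤ c² (E + N)
  have h3 : b * (8 * P) ≤ b * (c ^ 2 * (E + N)) := by
    calc b * (8 * P) = 8 * (b * P) := by ring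
      _ ≤ 8 * ((1 + G / 2) * E + G * N) := by linarith
      _ ≤ 8 * (1 + G) * (E + N) := by nlinarith [mul_nonneg hG hE, mul_nonneg hG hN]
      _ ≤ (b * c ^ 2) * (E + N) := by
          apply mul_le_mul_of_nonneg_right hb; linarith
      _ = b * (c ^ 2 * (E + N)) := by ring
  have h4 : 8 * P ≤ c ^ 2 * (E + N) := le_of_mul_le_mul_left h3 hb0
  have h5 : c ^ 2 * N ≤ N / 2 := by nlinarith
  nlinarith

lemma lintegral_split {Ω : Set ℂ} (hΩ : IsOpen Ω) {A₁ A₂ : ℂ → ℝ} {u : ℂ → ℂ}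
    (hu : ContDiffOn ℝ ∞ u Ω) {x y : ℝ} (hx : 0 ≤ x) (hy : 0 ≤ y) :
    ∫⁻ z in Ω, ENNReal.ofReal (x * (‖D1 A₁ u z‖ ^ 2 + ‖D2 A₂ u z‖ ^ 2) + y * ‖u z‖ ^ 2)
      = ENNReal.ofReal x * (∫⁻ z in Ω, ENNReal.ofReal (‖D1 A₁ u z‖ ^ 2 + ‖D2 A₂ u z‖ ^ 2))
        + ENNReal.ofReal y * (∫⁻ z in Ω, ENNReal.ofReal (‖u z‖ ^ 2)) := by
  have hm : AEMeasurable (fun z => ENNReal.ofReal y * ENNReal.ofReal (‖u z‖ ^ 2))
      (volume.restrict Ω) := by
    have h1 : ContinuousOn (fun z => ‖u z‖ ^ 2) Ω := (hu.continuousOn.norm).pow 2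
    have h2 : AEMeasurable (fun z => ‖u z‖ ^ 2) (volume.restrict Ω) :=
      h1.aemeasurable hΩ.measurableSet
    exact (ENNReal.measurable_ofReal.comp_aemeasurable h2).const_mul _
  rw [← lintegral_const_mul' _ _ ENNReal.ofReal_ne_top,
    ← lintegral_const_mul' _ _ ENNReal.ofReal_ne_top, ← lintegral_add_right' _ hm]
  apply lintegral_congr
  intro z
  rw [← ENNReal.ofReal_mul hx, ← ENNReal.ofReal_mul hy, ← ENNReal.ofReal_add (by positivity)
    (by positivity)]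

lemma dg_mem_ell {a c s t : ℝ} (hs0 : 0 ≤ s) (hs1 : s ≤ 1) (ht0 : 0 ≤ t) (ht1 : t ≤ 1) {z : ℂ}
    (hz : z ∈ ell a c) : dg s t z ∈ ell a c := by
  rw [mem_ell_iff] at hz ⊢
  rw [dg_re, dg_im, mul_div_assoc, mul_div_assoc, mul_pow, mul_pow]
  have hs2 : s ^ 2 ≤ 1 := by nlinarith
  have ht2 : t ^ 2 ≤ 1 := by nlinarith
  have h1 : s ^ 2 * (z.re / a) ^ 2 ≤ 1 * (z.re / a) ^ 2 :=
    mul_le_mul_of_nonneg_right hs2 (sq_nonneg _)
  have h2 : t ^ 2 * (z.im / c) ^ 2 ≤ 1 * (z.im / c) ^ 2 :=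
    mul_le_mul_of_nonneg_right ht2 (sq_nonneg _)
  linarith

lemma segment_bounds {α t : ℝ} (h0 : 0 ≤ α) (h1 : α ≤ 1) (ht : t ∈ Icc (0 : ℝ) 1) :
    0 ≤ α + t * (1 - α) ∧ α + t * (1 - α) ≤ 1 := by
  obtain ⟨ht0, ht1⟩ := ht
  constructor
  · have : 0 ≤ t * (1 - α) := mul_nonneg ht0 (by linarith)
    linarith
  · have : t * (1 - α) ≤ 1 * (1 - α) := mul_le_mul_of_nonneg_right ht1 (by linarith)
    linarith

lemma rho_core {a c α β : ℝ} (ha : 0 < a) (hc : 0 < c) (hα : 0 < α) (hβ : 0 < β) (hβα : β ≤ α)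
    {z : ℂ} (h : (z.re / (α * a)) ^ 2 + (z.im / (β * c)) ^ 2 ≤ 1) : rho a c z ≤ α ^ 2 := by
  have e1 : (z.re / a) ^ 2 = α ^ 2 * (z.re / (α * a)) ^ 2 := by field_simp
  have e2 : (z.im / c) ^ 2 = β ^ 2 * (z.im / (β * c)) ^ 2 := by field_simp
  have hβα2 : β ^ 2 ≤ α ^ 2 := by nlinarith
  unfold rho
  rw [e1, e2]
  have h2 : β ^ 2 * (z.im / (β * c)) ^ 2 ≤ α ^ 2 * (z.im / (β * c)) ^ 2 :=
    mul_le_mul_of_nonneg_right hβα2 (sq_nonneg _)
  have h3 : α ^ 2 * ((z.re / (α * a)) ^ 2 + (z.im / (β * c)) ^ 2) ≤ α ^ 2 * 1 :=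
    mul_le_mul_of_nonneg_left h (sq_nonneg _)
  linarith

/-- Lower bound on the elongated ellipse for large flux. -/
theorem lower_bound {c : ℝ} (hc : 0 < c) (hc2 : c ^ 2 ≤ 1 / 2) :
    ∃ b₀ : ℝ, ∀ b : ℝ, b₀ ≤ b → ∀ A₁ A₂ : ℂ → ℝ, Measurable A₁ → Measurable A₂ →
      (∃ C : ℝ, ∀ z ∈ ell (1 / c) c, |A₁ z| ≤ C ∧ |A₂ z| ≤ C) →
      (∀ φ : ℂ → ℝ, ContDiff ℝ ∞ φ → HasCompactSupport φ → tsupport φ ⊆ ell (1 / c) c →
        ∫ z in ell (1 / c) c, (A₂ z * fderiv ℝ φ z 1 - A₁ z * fderiv ℝ φ z I)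
          = - (b * ∫ z in ell ((1 - c ^ 2) * (1 / c)) ((1 / (4 * (1 - c ^ 2))) * c), φ z)) →
      ∀ u : ℂ → ℂ, ContDiffOn ℝ ∞ u (ell (1 / c) c) →
        ∫⁻ z in ell (1 / c) c, ENNReal.ofReal (‖u z‖ ^ 2) ≠ ⊤ →
        ∫⁻ z in ell (1 / c) c, ENNReal.ofReal (‖u z‖ ^ 2) ≤ ENNReal.ofReal (258 * c ^ 2)
          * ∫⁻ z in ell (1 / c) c, ENNReal.ofReal (‖D1 A₁ u z‖ ^ 2 + ‖D2 A₂ u z‖ ^ 2) := by
  set a : ℝ := 1 / c with ha
  set α : ℝ := 1 - c ^ 2 with hα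
  set β : ℝ := 1 / (4 * (1 - c ^ 2)) with hβ
  have hc2' : 0 < c ^ 2 := by positivity
  have ha0 : 0 < a := by positivity
  have hα0 : 1 / 2 ≤ α := by rw [hα]; linarith
  have hα1 : α < 1 := by rw [hα]; linarith
  have hαpos : 0 < α := by linarith
  have hβ0 : 0 < β := by rw [hβ, ← hα]; positivity
  have hβ1 : β ≤ 1 / 2 := by
    rw [hβ, ← hα, div_le_div_iff₀ (by positivity) (by norm_num)]; linarith
  have hαβ : α * β = 1 / 4 := by rw [hβ, ← hα]; field_simp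
  have hαβ' : (α * β)⁻¹ = 4 := by rw [hαβ]; norm_num
  have hca : c ^ 2 * a = c := by rw [ha]; field_simp
  -- the cutoff
  set r₀ : ℝ := α ^ 2 with hr₀
  set r₁ : ℝ := (1 + α ^ 2) / 2 with hr₁
  have hα2 : α ^ 2 < 1 := by nlinarith
  have hr01 : r₀ < r₁ := by rw [hr₀, hr₁]; linarith
  have hr1 : r₁ < 1 := by rw [hr₁]; linarith
  obtain ⟨G, hG0, hG⟩ := exists_grad_bound (contDiff_cut a c r₀ r₁) (compact_cut ha0 hc hr01 hr1)
  refine ⟨8 * (1 + G) / c ^ 2, fun b hb A₁ A₂ hA1 hA2 ⟨C, hC⟩ hw u hu hNfin => ?_⟩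
  have hb' : 8 * (1 + G) ≤ b * c ^ 2 := by rwa [div_le_iff₀ hc2'] at hb
  have hb0 : 0 ≤ b := by
    have : 0 ≤ 8 * (1 + G) / c ^ 2 := by positivity
    linarith
  set Ω := ell a c with hΩdef
  set K := ell (α * a) (β * c) with hKdef
  have hΩ : IsOpen Ω := isOpen_ell _ _
  have hK : MeasurableSet K := (isOpen_ell _ _).measurableSet
  have hKrho : ∀ z ∈ K, rho a c z ≤ r₀ := by
    intro z hz
    have h1 : (z.re / (α * a)) ^ 2 + (z.im / (β * c)) ^ 2 < 1 := hz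
    exact rho_core ha0 hc hαpos hβ0 (by linarith) h1.le
  have hKΩ : K ⊆ Ω := fun z hz => rho_lt_iff.mpr (lt_of_le_of_lt (hKrho z hz) hα2)
  have hbounds : ∀ z ∈ Ω, |z.re| ≤ a ∧ |z.im| ≤ c := by
    intro z hz
    have h1 : (z.re / a) ^ 2 + (z.im / c) ^ 2 < 1 := hz
    constructor
    · have h2 : |z.re / a| < 1 := by
        rw [← sq_lt_one_iff_abs_lt_one]; nlinarith [sq_nonneg (z.im / c)]
      rw [abs_div, abs_of_pos ha0, div_lt_one ha0] at h2
      exact h2.le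
    · have h2 : |z.im / c| < 1 := by
        rw [← sq_lt_one_iff_abs_lt_one]; nlinarith [sq_nonneg (z.re / a)]
      rw [abs_div, abs_of_pos hc, div_lt_one hc] at h2
      exact h2.le
  -- abbreviations
  set N := ∫⁻ z in Ω, ENNReal.ofReal (‖u z‖ ^ 2) with hN
  set E := ∫⁻ z in Ω, ENNReal.ofReal (‖D1 A₁ u z‖ ^ 2 + ‖D2 A₂ u z‖ ^ 2) with hE
  set P := ∫⁻ z in K, ENNReal.ofReal (‖u z‖ ^ 2) with hP
  have hPN : P ≤ N := lintegral_mono_set hKΩ
  have hPfin : P ≠ ⊤ := ne_top_of_le_ne_top hNfin hPN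
  by_cases hEfin : E = ⊤
  · rw [hEfin, ENNReal.mul_top (by
      rw [Ne, ENNReal.ofReal_eq_zero, not_le]; positivity)]
    exact le_top
  -- commutator estimate
  have hcurl := curl_bound hΩ hK (contDiff_cut a c r₀ r₁) (compact_cut ha0 hc hr01 hr1)
    (fun z hz => rho_lt_iff.mpr (lt_of_le_of_lt (tsupport_cut hr01 hz) hr1))
    (fun z => Real.smoothTransition.nonneg _) (fun z => Real.smoothTransition.le_one _)
    (fun z hz => cut_one hr01 (hKrho z hz)) hG hu hA1 hA2 hC hb0 hw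
  rw [lintegral_split hΩ hu (by positivity) hG0, ← hN, ← hE, ← hP] at hcurl
  -- homotopy estimate
  have hhom := homotopy_bound (κ := c) (δ := 1 / (16 * c)) (α := α) (β := β) hΩ hK hKΩ
    (A₁ := A₁) (A₂ := A₂) hu hA1 hA2 (by positivity) hαpos hα1.le hβ0 (by linarith)
    (by
      intro z hz t ht
      obtain ⟨hx0, hx1⟩ := segment_bounds hαpos.le hα1.le ht
      obtain ⟨hy0, hy1⟩ := segment_bounds hβ0.le (by linarith) ht
      exact dg_mem_ell hx0 hx1 hy0 hy1 hz)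
    (by
      intro z hz
      have h1 : (z.re / a) ^ 2 + (z.im / c) ^ 2 < 1 := hz
      change ((dg α β z).re / (α * a)) ^ 2 + ((dg α β z).im / (β * c)) ^ 2 < 1
      rw [dg_re, dg_im, mul_div_mul_left _ _ hαpos.ne', mul_div_mul_left _ _ hβ0.ne']
      exact h1)
    (by
      intro z hz
      obtain ⟨h1, h2⟩ := hbounds z hz
      constructor
      · change |(1 - α) * z.re| ≤ c
        have e : 1 - α = c ^ 2 := by rw [hα]; ring
        rw [e, abs_mul, abs_of_pos hc2']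
        calc c ^ 2 * |z.re| ≤ c ^ 2 * a := by gcongr
          _ = c := hca
      · change |(1 - β) * z.im| ≤ c
        rw [abs_mul, abs_of_pos (by linarith : (0 : ℝ) < 1 - β)]
        calc (1 - β) * |z.im| ≤ 1 * c := by
              apply mul_le_mul (by linarith) h2 (abs_nonneg _) (by norm_num)
          _ = c := one_mul c)
  rw [hαβ', ← hN, ← hP] at hhom
  have hdens : ∫⁻ z in Ω, ENNReal.ofReal (dens c (1 / (16 * c)) A₁ A₂ u z)
      = ENNReal.ofReal (16 * c ^ 2) * E + ENNReal.ofReal (1 / 8) * N := by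
    rw [hE, hN, ← lintegral_split hΩ hu (by positivity) (by norm_num)]
    apply lintegral_congr
    intro z
    congr 1
    unfold dens
    field_simp
    ring
  rw [hdens] at hhom
  -- pass to real numbers
  have hNr : ENNReal.ofReal N.toReal = N := ENNReal.ofReal_toReal hNfin
  have hEr : ENNReal.ofReal E.toReal = E := ENNReal.ofReal_toReal hEfin
  have hPr : ENNReal.ofReal P.toReal = P := ENNReal.ofReal_toReal hPfin
  have hN0 : 0 ≤ N.toReal := ENNReal.toReal_nonneg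
  have hE0 : 0 ≤ E.toReal := ENNReal.toReal_nonneg
  have hP0 : 0 ≤ P.toReal := ENNReal.toReal_nonneg
  have r1 : b * P.toReal ≤ (1 + G / 2) * E.toReal + G * N.toReal := by
    rw [← hNr, ← hEr, ← hPr, ← ENNReal.ofReal_mul hb0, ← ENNReal.ofReal_mul (by positivity),
      ← ENNReal.ofReal_mul hG0, ← ENNReal.ofReal_add (by positivity) (by positivity),
      ENNReal.ofReal_le_ofReal_iff (by positivity)] at hcurl
    exact hcurl
  have r2 : N.toReal ≤ 4 * P.toReal + N.toReal / 2 + 64 * c ^ 2 * E.toReal := by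
    rw [← hNr, ← hEr, ← hPr, ← ENNReal.ofReal_mul (by positivity),
      ← ENNReal.ofReal_mul (by positivity), ← ENNReal.ofReal_mul (by positivity),
      ← ENNReal.ofReal_add (by positivity) (by positivity), ← ENNReal.ofReal_mul (by positivity),
      ← ENNReal.ofReal_add (by positivity) (by positivity),
      ENNReal.ofReal_le_ofReal_iff (by positivity)] at hhom
    linarith
  have := final_algebra hN0 hE0 hG0 hc hc2 hb' r1 r2
  rw [← hNr, ← hEr, ← ENNReal.ofReal_mul (by positivity)]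
  exact ENNReal.ofReal_le_ofReal this

end Pool.Agent.R293.RFK
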