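import Pool.Agent.R293.RFK.Curl
import Pool.Agent.R293.RFK.Comm

/-! The test functions on the disc. -/

namespace Pool.Agent.R293.RFK

open MeasureTheory Set Complex Topology
open scoped ContDiff NNReal ENNReal ComplexConjugate

/-- Radial profile. -/
noncomputable def gg (s : ℝ) : ℝ := expNegInvGlue (s - 1 / 4)

lemma contDiff_gg : ContDiff ℝ ∞ gg := expNegInvGlue.contDiff.comp (contDiff_id.sub contDiff_const)

lemma gg_zero {s : ℝ} (h : s ≤ 1 / 4) : gg s = 0 := expNegInvGlue.zero_of_nonpos (by linarith)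

lemma gg_pos {s : ℝ} (h : 1 / 4 < s) : 0 < gg s := expNegInvGlue.pos_of_pos (by linarith)

/-- The square of the modulus. -/
noncomputable def nsq (z : ℂ) : ℝ := z.re ^ 2 + z.im ^ 2

lemma contDiff_nsq : ContDiff ℝ ∞ nsq := by
  unfold nsq
  have h1 : ContDiff ℝ ∞ (fun z : ℂ => z.re) := Complex.reCLM.contDiff
  have h2 : ContDiff ℝ ∞ (fun z : ℂ => z.im) := Complex.imCLM.contDiff
  exact (h1.pow 2).add (h2.pow 2)

lemma continuous_nsq : Continuous nsq := contDiff_nsq.continuous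

/-- The test function of angular momentum `2j`. -/
noncomputable def tf (j : ℕ) (z : ℂ) : ℂ := ((gg (nsq z) : ℝ) : ℂ) * (z * (conj z)⁻¹) ^ j

lemma tf_zero {j : ℕ} {z : ℂ} (h : nsq z ≤ 1 / 4) : tf j z = 0 := by
  unfold tf; rw [gg_zero h]; simp

lemma contDiff_tf (j : ℕ) : ContDiff ℝ ∞ (tf j) := by
  rw [contDiff_iff_contDiffAt]
  intro z
  by_cases hz : nsq z < 1 / 4
  · have h1 : tf j =ᶠ[𝓝 z] fun _ => (0 : ℂ) := by
      have : {w : ℂ | nsq w < 1 / 4} ∈ 𝓝 z :=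
        (isOpen_lt continuous_nsq continuous_const).mem_nhds hz
      filter_upwards [this] with w hw
      exact tf_zero (le_of_lt hw)
    exact contDiffAt_const.congr_of_eventuallyEq h1
  · have hz0 : z ≠ 0 := by
      rintro rfl
      apply hz
      norm_num [nsq]
    have hc0 : conj z ≠ 0 := by simpa using hz0
    have h1 : ContDiffAt ℝ ∞ (fun z => ((gg (nsq z) : ℝ) : ℂ)) z :=
      (Complex.ofRealCLM.contDiff.comp (contDiff_gg.comp contDiff_nsq)).contDiffAt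
    have h2 : ContDiffAt ℝ ∞ (fun z : ℂ => conj z) z := Complex.conjCLE.contDiff.contDiffAt
    have h3 : ContDiffAt ℝ ∞ (fun z : ℂ => (z * (conj z)⁻¹) ^ j) z :=
      (contDiffAt_id.mul (h2.inv hc0)).pow j
    exact h1.mul h3

lemma norm_vv {z : ℂ} (hz : z ≠ 0) : ‖z * (conj z)⁻¹‖ = 1 := by
  rw [norm_mul, norm_inv, Complex.norm_conj]
  exact mul_inv_cancel₀ (norm_ne_zero_iff.mpr hz)

lemma norm_tf (j : ℕ) (z : ℂ) : ‖tf j z‖ ^ 2 = gg (nsq z) ^ 2 := by
  by_cases hz : z = 0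
  · subst hz
    rw [tf_zero (by norm_num [nsq]), gg_zero (by norm_num [nsq])]; simp
  · unfold tf
    rw [norm_mul, norm_pow, norm_vv hz, one_pow, mul_one, Complex.norm_real, Real.norm_eq_abs,
      sq_abs]

lemma hasDerivAt_pow_log {f : ℝ → ℂ} {κ : ℂ} {t : ℝ} (h : HasDerivAt f (κ * f t) t) (j : ℕ) :
    HasDerivAt (fun t => f t ^ j) (j * κ * f t ^ j) t := by
  have h1 := h.fun_pow j
  refine h1.congr_deriv ?_
  rcases j with _ | j
  · simp
  · simp only [Nat.add_sub_cancel, Nat.cast_add, Nat.cast_one]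
    ring

lemma line1 {z : ℂ} (hz : z ≠ 0) (j : ℕ) :
    HasDerivAt (fun t : ℝ => tf j (z + t • (1 : ℂ)))
      (((deriv gg (nsq z) * (2 * z.re) : ℝ) : ℂ) * (z * (conj z)⁻¹) ^ j
        + ((gg (nsq z) : ℝ) : ℂ) * (j * (-(2 * I * z.im) / (nsq z : ℝ)) * (z * (conj z)⁻¹) ^ j)) 0 := by
  have hc0 : conj z ≠ 0 := by simpa using hz
  have hfun : (fun t : ℝ => tf j (z + t • (1 : ℂ))) = fun t : ℝ =>
      ((gg ((z.re + t) ^ 2 + z.im ^ 2) : ℝ) : ℂ) * ((z + t) * (conj z + t)⁻¹) ^ j := by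
    funext t
    unfold tf nsq
    simp
  rw [hfun]
  have h1 : HasDerivAt (fun t : ℝ => z.re + t) 1 0 := (hasDerivAt_id (0 : ℝ)).const_add z.re
  have h2 : HasDerivAt (fun t : ℝ => (z.re + t) ^ 2 + z.im ^ 2) (2 * (z.re + 0) ^ 1 * 1) 0 := by
    simpa using (h1.pow 2).add_const (z.im ^ 2)
  have hgd : HasDerivAt gg (deriv gg ((z.re + 0) ^ 2 + z.im ^ 2)) ((z.re + 0) ^ 2 + z.im ^ 2) :=
    ((contDiff_gg.differentiable (by simp)) _).hasDerivAt
  have h3 : HasDerivAt (fun t : ℝ => gg ((z.re + t) ^ 2 + z.im ^ 2))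
      (deriv gg ((z.re + 0) ^ 2 + z.im ^ 2) * (2 * (z.re + 0) ^ 1 * 1)) 0 :=
    HasDerivAt.comp (0 : ℝ) (h₂ := gg) (h := fun t : ℝ => (z.re + t) ^ 2 + z.im ^ 2) hgd h2
  have h3' := h3.ofReal_comp
  have hid : HasDerivAt (fun t : ℝ => (t : ℂ)) 1 0 := by
    simpa using (hasDerivAt_id (0 : ℝ)).ofReal_comp
  have h4 : HasDerivAt (fun t : ℝ => z + (t : ℂ)) 1 0 := hid.const_add z
  have h5 : HasDerivAt (fun t : ℝ => conj z + (t : ℂ)) 1 0 := hid.const_add _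
  have h6 : HasDerivAt (fun t : ℝ => (conj z + (t : ℂ))⁻¹) (-1 / (conj z + ((0 : ℝ) : ℂ)) ^ 2) 0 :=
    h5.fun_inv (by simpa using hc0)
  have hs : ((nsq z : ℝ) : ℂ) = z * conj z := by
    rw [Complex.mul_conj, Complex.normSq_apply]; unfold nsq; push_cast; ring
  have hs0 : z * conj z ≠ 0 := mul_ne_zero hz hc0
  have him : 2 * I * (z.im : ℂ) = z - conj z := by
    apply Complex.ext
    · simp
    · simp; ring
  have h7 : HasDerivAt (fun t : ℝ => (z + (t : ℂ)) * (conj z + (t : ℂ))⁻¹)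
      ((-(2 * I * z.im) / (nsq z : ℝ)) * ((z + ((0 : ℝ) : ℂ)) * (conj z + ((0 : ℝ) : ℂ))⁻¹)) 0 := by
    refine (h4.fun_mul h6).congr_deriv ?_
    rw [hs, him]
    simp only [Complex.ofReal_zero, add_zero]
    field_simp
    ring
  have h8 := hasDerivAt_pow_log h7 j
  have h9 := h3'.fun_mul h8
  refine h9.congr_deriv ?_
  simp only [Complex.ofReal_zero, add_zero, pow_one, mul_one]
  unfold nsq
  ring

lemma line2 {z : ℂ} (hz : z ≠ 0) (j : ℕ) :
    HasDerivAt (fun t : ℝ => tf j (z + t • I))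
      (((deriv gg (nsq z) * (2 * z.im) : ℝ) : ℂ) * (z * (conj z)⁻¹) ^ j
        + ((gg (nsq z) : ℝ) : ℂ) * (j * ((2 * I * z.re) / (nsq z : ℝ)) * (z * (conj z)⁻¹) ^ j)) 0 := by
  have hc0 : conj z ≠ 0 := by simpa using hz
  have hfun : (fun t : ℝ => tf j (z + t • I)) = fun t : ℝ =>
      ((gg (z.re ^ 2 + (z.im + t) ^ 2) : ℝ) : ℂ) * ((z + t * I) * (conj z - t * I)⁻¹) ^ j := by
    funext t
    unfold tf nsq
    have : conj (z + t • I) = conj z - t * I := by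
      simp [sub_eq_add_neg]
    rw [this]
    simp
  rw [hfun]
  have h1 : HasDerivAt (fun t : ℝ => z.im + t) 1 0 := (hasDerivAt_id (0 : ℝ)).const_add z.im
  have h2 : HasDerivAt (fun t : ℝ => z.re ^ 2 + (z.im + t) ^ 2) (2 * (z.im + 0) ^ 1 * 1) 0 := by
    simpa using (h1.pow 2).const_add (z.re ^ 2)
  have hgd : HasDerivAt gg (deriv gg (z.re ^ 2 + (z.im + 0) ^ 2)) (z.re ^ 2 + (z.im + 0) ^ 2) :=
    ((contDiff_gg.differentiable (by simp)) _).hasDerivAt
  have h3 : HasDerivAt (fun t : ℝ => gg (z.re ^ 2 + (z.im + t) ^ 2))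
      (deriv gg (z.re ^ 2 + (z.im + 0) ^ 2) * (2 * (z.im + 0) ^ 1 * 1)) 0 :=
    HasDerivAt.comp (0 : ℝ) (h₂ := gg) (h := fun t : ℝ => z.re ^ 2 + (z.im + t) ^ 2) hgd h2
  have h3' := h3.ofReal_comp
  have hid : HasDerivAt (fun t : ℝ => (t : ℂ) * I) I 0 := by
    simpa using ((hasDerivAt_id (0 : ℝ)).ofReal_comp).mul_const I
  have h4 : HasDerivAt (fun t : ℝ => z + (t : ℂ) * I) I 0 := hid.const_add z
  have h5 : HasDerivAt (fun t : ℝ => conj z - (t : ℂ) * I) (-I) 0 := hid.const_sub _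
  have h6 : HasDerivAt (fun t : ℝ => (conj z - (t : ℂ) * I)⁻¹)
      (-(-I) / (conj z - ((0 : ℝ) : ℂ) * I) ^ 2) 0 :=
    h5.fun_inv (by simpa using hc0)
  have hs : ((nsq z : ℝ) : ℂ) = z * conj z := by
    rw [Complex.mul_conj, Complex.normSq_apply]; unfold nsq; push_cast; ring
  have hs0 : z * conj z ≠ 0 := mul_ne_zero hz hc0
  have hre : 2 * I * (z.re : ℂ) = I * (z + conj z) := by
    apply Complex.ext
    · simp
    · simp; ring
  have h7 : HasDerivAt (fun t : ℝ => (z + (t : ℂ) * I) * (conj z - (t : ℂ) * I)⁻¹)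
      (((2 * I * z.re) / (nsq z : ℝ)) * ((z + ((0 : ℝ) : ℂ) * I) * (conj z - ((0 : ℝ) : ℂ) * I)⁻¹))
      0 := by
    refine (h4.fun_mul h6).congr_deriv ?_
    rw [hs, hre]
    simp only [Complex.ofReal_zero, add_zero, zero_mul, sub_zero]
    field_simp
    ring
  have h8 := hasDerivAt_pow_log h7 j
  have h9 := h3'.fun_mul h8
  refine h9.congr_deriv ?_
  simp only [Complex.ofReal_zero, add_zero, pow_one, mul_one, zero_mul, sub_zero]
  unfold nsq
  ring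

lemma fderiv_of_line {u : ℂ → ℂ} {z v w : ℂ} (hu : DifferentiableAt ℝ u z)
    (h : HasDerivAt (fun t : ℝ => u (z + t • v)) w 0) : fderiv ℝ u z v = w := by
  have h1 : HasDerivAt (fun t : ℝ => z + t • v) v 0 := by
    simpa using ((hasDerivAt_id (0 : ℝ)).smul_const v).const_add z
  have h2 : HasFDerivAt u (fderiv ℝ u z) ((fun t : ℝ => z + t • v) 0) := by
    simpa using hu.hasFDerivAt
  exact (h2.comp_hasDerivAt (0 : ℝ) h1).unique h

/-- The magnetic gradient of the test function, outside the core. -/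
lemma D_tf_out {z : ℂ} (h : 1 / 4 < nsq z) (j : ℕ) {A₁ A₂ : ℂ → ℝ}
    (hA1 : A₁ z = -(2 * j * (FF z).im)) (hA2 : A₂ z = 2 * j * (FF z).re) :
    ‖D1 A₁ (tf j) z‖ ^ 2 + ‖D2 A₂ (tf j) z‖ ^ 2 = 4 * nsq z * (deriv gg (nsq z)) ^ 2 := by
  have hz : z ≠ 0 := by
    rintro rfl
    norm_num [nsq] at h
  have hd : DifferentiableAt ℝ (tf j) z := ((contDiff_tf j).differentiable (by simp)) z
  have e1 := fderiv_of_line hd (line1 hz j)
  have e2 := fderiv_of_line hd (line2 hz j)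
  have k0 : kk (z.re ^ 2 + z.im ^ 2) = (nsq z)⁻¹ := kk_of_ge (le_of_lt h)
  have k1 : (FF z).im = (nsq z)⁻¹ * z.im := by rw [FF_im, k0]
  have k2 : (FF z).re = (nsq z)⁻¹ * z.re := by rw [FF_re, k0]
  have d1 : D1 A₁ (tf j) z = ((deriv gg (nsq z) * (2 * z.re) : ℝ) : ℂ) * (z * (conj z)⁻¹) ^ j := by
    unfold D1
    rw [e1, hA1, k1]
    unfold tf
    push_cast
    ring
  have d2 : D2 A₂ (tf j) z = ((deriv gg (nsq z) * (2 * z.im) : ℝ) : ℂ) * (z * (conj z)⁻¹) ^ j := by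
    unfold D2
    rw [e2, hA2, k2]
    unfold tf
    push_cast
    ring
  rw [d1, d2, norm_mul, norm_mul, norm_pow, norm_vv hz, one_pow, mul_one, mul_one,
    Complex.norm_real, Complex.norm_real, Real.norm_eq_abs, Real.norm_eq_abs, sq_abs, sq_abs]
  unfold nsq
  ring

lemma D_tf_in {z : ℂ} (h : nsq z < 1 / 4) (j : ℕ) (A₁ A₂ : ℂ → ℝ) :
    ‖D1 A₁ (tf j) z‖ ^ 2 + ‖D2 A₂ (tf j) z‖ ^ 2 = 4 * nsq z * (deriv gg (nsq z)) ^ 2 := by
  have h1 : tf j =ᶠ[𝓝 z] fun _ => (0 : ℂ) := by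
    have : {w : ℂ | nsq w < 1 / 4} ∈ 𝓝 z :=
      (isOpen_lt continuous_nsq continuous_const).mem_nhds h
    filter_upwards [this] with w hw
    exact tf_zero (le_of_lt hw)
  have h2 : gg =ᶠ[𝓝 (nsq z)] fun _ => (0 : ℝ) := by
    filter_upwards [Iio_mem_nhds h] with s hs
    exact gg_zero (le_of_lt hs)
  unfold D1 D2
  rw [h1.fderiv_eq, h2.deriv_eq, tf_zero h.le]
  simp

lemma lintegral_lt_top_of_continuous {Ω : Set ℂ} (hb : Bornology.IsBounded Ω) {h : ℂ → ℝ}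
    (hh : Continuous h) : ∫⁻ z in Ω, ENNReal.ofReal (h z) < ⊤ := by
  have hcomp : IsCompact (closure Ω) := hb.isCompact_closure
  obtain ⟨C, hC⟩ := hcomp.exists_bound_of_continuousOn hh.continuousOn
  calc ∫⁻ z in Ω, ENNReal.ofReal (h z) ≤ ∫⁻ z in closure Ω, ENNReal.ofReal (h z) :=
        lintegral_mono_set subset_closure
    _ ≤ ∫⁻ _z in closure Ω, ENNReal.ofReal C := by
        apply setLIntegral_mono' isClosed_closure.measurableSet
        intro z hz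
        exact ENNReal.ofReal_le_ofReal ((Real.le_norm_self _).trans (hC z hz))
    _ = ENNReal.ofReal C * volume (closure Ω) := by
        rw [lintegral_const, Measure.restrict_apply_univ]
    _ < ⊤ := ENNReal.mul_lt_top ENNReal.ofReal_lt_top hcomp.measure_lt_top

end Pool.Agent.R293.RFK
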